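import Pool.Agent.Helper66.AC.Main

/-!
MP_1bf996_co (almost k-covers of the cube): a spanning forest of bounded height in the graph of the edges.
-/

set_option autoImplicit false

open Finset

namespace Pool.Agent.Helper66.AC

variable {V ι : Type} [Fintype V] [DecidableEq V] [Fintype ι] [DecidableEq ι]
variable {k : ℕ} (A : Cov V ι k)

namespace Cov

/-- The path case. -/
theorem path_case' (hk : 3 ≤ k) (d e : ℕ) (hd : A.Eᶜ.card ≤ d) (φ : V → V) (hφ : A.Good φ)
    (l : ℕ) (t : ℕ → V) (ht : ∀ i ≤ l, φ (t i) = t i)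
    (hinj : ∀ i ≤ l, ∀ j ≤ l, t i = t j → i = j)
    (hδ : ∀ i < l, ∃ j ∈ A.E, (φ (A.p j) = t i ∧ φ (A.q j) = t (i + 1)) ∨
      (φ (A.p j) = t (i + 1) ∧ φ (A.q j) = t i))
    (hall : ∀ j ∈ A.E, φ (A.p j) ≠ φ (A.q j) → φ (A.p j) ∈ (range (l + 1)).image t ∧
      φ (A.q j) ∈ (range (l + 1)).image t)
    (hN : Fintype.card ι + 1 < Fintype.card V + e) :
    l ≤ 2 ^ (d + e) := by
  classical
  rcases Nat.eq_zero_or_pos l with rfl | hlpos
  · exact Nat.zero_le _
  have hιne : Nonempty ι := by
    obtain ⟨j, -, -⟩ := hδ 0 hlpos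
    exact ⟨j⟩
  set T := (range (l + 1)).image t with hT
  set R := rest φ T with hR
  have htT : ∀ i ≤ l, t i ∈ T := fun i hi => by
    rw [hT, Finset.mem_image]; exact ⟨i, Finset.mem_range.mpr (by omega), rfl⟩
  have hTc : ∃ v ∈ T, φ v = v := ⟨t 0, htT 0 (Nat.zero_le _), ht 0 (Nat.zero_le _)⟩
  have hRd : R.card ≤ d := (A.rest_card (by omega) hTc hall).trans hd
  choose! δ hδE hδ' using hδ
  set D := (range l).image δ with hD
  have hδinj : Set.InjOn δ (range l) := by
    intro i hi i' hi' heq
    simp only [Finset.coe_range, Set.mem_Iio] at hi hi'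
    rcases hδ' i hi with ⟨h1, h2⟩ | ⟨h1, h2⟩ <;> rcases hδ' i' hi' with ⟨h3, h4⟩ | ⟨h3, h4⟩ <;>
      rw [heq] at h1 h2
    · exact hinj i (by omega) i' (by omega) (h1.symm.trans h3)
    · have e1 := hinj i (by omega) (i' + 1) (by omega) (h1.symm.trans h3)
      have e2 := hinj (i + 1) (by omega) i' (by omega) (h2.symm.trans h4)
      omega
    · have e1 := hinj (i + 1) (by omega) i' (by omega) (h1.symm.trans h3)
      have e2 := hinj i (by omega) (i' + 1) (by omega) (h2.symm.trans h4)
      omega
    · exact hinj i (by omega) i' (by omega) (h2.symm.trans h4)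
  have hDc : D.card = l := by rw [hD, Finset.card_image_of_injOn hδinj, Finset.card_range]
  have hDk : Disjoint (A.killed φ) D := by
    rw [Finset.disjoint_left]
    intro j hj hjD
    rw [hD, Finset.mem_image] at hjD
    obtain ⟨i, hi, rfl⟩ := hjD
    rw [Finset.mem_range] at hi
    rw [killed, Finset.mem_filter] at hj
    rcases hδ' i hi with ⟨h1, h2⟩ | ⟨h1, h2⟩
    · rw [h1, h2] at hj
      have := hinj i (by omega) (i + 1) (by omega) hj.2
      omega
    · rw [h1, h2] at hj
      have := hinj (i + 1) (by omega) i (by omega) hj.2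
      omega
  set W := (A.killed φ ∪ D)ᶜ with hW
  have hWc : W.card + (A.killed φ).card + l = Fintype.card ι := by
    have h1 := Finset.card_compl_add_card (A.killed φ ∪ D)
    rw [Finset.card_union_of_disjoint hDk, hDc] at h1
    rw [← hW] at h1
    omega
  have hTcard : T.card = l + 1 := by
    rw [hT, Finset.card_image_of_injOn, Finset.card_range]
    intro i hi j hj hij
    simp only [Finset.coe_range, Set.mem_Iio] at hi hj
    exact hinj i (by omega) j (by omega) hij
  have himg : (univ.image φ).card = l + 1 + R.card := by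
    have hsub : T ⊆ univ.image φ := by
      intro x hx
      rw [hT, Finset.mem_image] at hx
      obtain ⟨i, hi, rfl⟩ := hx
      rw [Finset.mem_range] at hi
      rw [Finset.mem_image]
      exact ⟨t i, Finset.mem_univ _, ht i (by omega)⟩
    have h1 := Finset.card_sdiff_add_card_eq_card hsub
    have h3 : R.card = (univ.image φ \ T).card := rfl
    omega
  have hcount := hφ.count
  have hWlt : W.card < R.card + e := by omega
  have hpar := parity W l (fun i w => ∑ s ∈ range (i + 1), qv A.a φ w (t s)) (by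
    intro i j hij hjl
    set X := (Finset.Ioc i j).image t with hX
    have hmem : ∀ s ≤ l, (t s ∈ X ↔ i < s ∧ s ≤ j) := by
      intro s hs
      rw [hX, Finset.mem_image]
      constructor
      · rintro ⟨s', hs', heq⟩
        rw [Finset.mem_Ioc] at hs'
        have := hinj s' (by omega) s hs heq
        subst this
        exact hs'
      · intro h
        exact ⟨s, Finset.mem_Ioc.mpr h, rfl⟩
    have hcov := A.qcov φ X ⟨t j, by rw [ht j (by omega), hmem j (by omega)]; omega⟩
      ⟨t 0, by rw [ht 0 (by omega), hmem 0 (by omega)]; omega⟩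
    have hex : ∃ w, w ∈ W ∧ ∑ x ∈ X, qv A.a φ w x = 1 := by
      by_contra hcon
      push Not at hcon
      have hsub : univ.filter (fun w => ∑ x ∈ X, qv A.a φ w x = 1) ⊆ {δ i, δ j} := by
        intro w hw
        rw [Finset.mem_filter] at hw
        have hwW : w ∉ W := fun h => hcon w h hw.2
        rw [hW, Finset.mem_compl, not_not, Finset.mem_union] at hwW
        rcases hwW with h | h
        · exact absurd hw.2 (A.killed_ne φ h _)
        · rw [hD, Finset.mem_image] at h
          obtain ⟨s, hs, rfl⟩ := h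
          rw [Finset.mem_range] at hs
          have hw2 := hw.2
          rw [A.qedge φ (hδE s hs)] at hw2
          have hs12 : s = i ∨ s = j := by
            by_contra hne
            push Not at hne
            have m1 := hmem s (by omega)
            have m2 := hmem (s + 1) (by omega)
            have hiff : t s ∈ X ↔ t (s + 1) ∈ X := by
              rw [m1, m2]
              constructor
              · rintro ⟨h1, h2⟩
                exact ⟨by omega, by omega⟩
              · rintro ⟨h1, h2⟩
                exact ⟨by omega, by omega⟩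
            rcases hδ' s hs with ⟨h1, h2⟩ | ⟨h1, h2⟩
            · rw [h1, h2] at hw2
              by_cases hX1 : t s ∈ X
              · rw [if_pos hX1, if_pos (hiff.mp hX1)] at hw2
                norm_num at hw2
              · rw [if_neg hX1, if_neg (fun h => hX1 (hiff.mpr h))] at hw2
                norm_num at hw2
            · rw [h1, h2] at hw2
              by_cases hX1 : t s ∈ X
              · rw [if_pos hX1, if_pos (hiff.mp hX1)] at hw2
                norm_num at hw2
              · rw [if_neg hX1, if_neg (fun h => hX1 (hiff.mpr h))] at hw2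
                norm_num at hw2
          rcases hs12 with rfl | rfl
          · exact Finset.mem_insert_self _ _
          · exact Finset.mem_insert_of_mem (Finset.mem_singleton_self _)
      have h1 := Finset.card_le_card hsub
      have h2 : ({δ i, δ j} : Finset ι).card ≤ 2 := Finset.card_le_two
      omega
    obtain ⟨w, hw, hw1⟩ := hex
    refine ⟨w, hw, ?_⟩
    rw [← hw1, hX, Finset.sum_image]
    · have h3 := Finset.sum_Ico_eq_sub (fun s => qv A.a φ w (t s)) (show i + 1 ≤ j + 1 by omega)
      have h4 : Finset.Ioc i j = Finset.Ico (i + 1) (j + 1) := by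
        ext s
        simp only [Finset.mem_Ioc, Finset.mem_Ico]
        omega
      rw [h4, h3]
    · intro s hs s' hs' heq
      simp only [Finset.coe_Ioc, Set.mem_Ioc] at hs hs'
      exact hinj s (by omega) s' (by omega) heq)
  refine hpar.trans (Nat.pow_le_pow_right (by norm_num) (by omega))


/-- There is no path of length `l = 2 ^ (d + e) + 1`. -/
theorem no_path (hk : 3 ≤ k) (d e : ℕ) (hd : A.Eᶜ.card ≤ d)
    (hcon : Fintype.card ι + 1 < Fintype.card V + e) (l : ℕ) (hl : l = 2 ^ (d + e) + 1) :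
    ¬ ∃ t : ℕ → V, (∀ i ≤ l, ∀ j ≤ l, t i = t j → i = j) ∧ ∀ i < l, A.graph.Adj (t i) (t (i + 1)) := by
  classical
  rintro ⟨t, htinj, htadj⟩
  set T := (range (l + 1)).image t with hT
  have htT : ∀ i ≤ l, t i ∈ T := fun i hi => by
    rw [hT, Finset.mem_image]; exact ⟨i, Finset.mem_range.mpr (by omega), rfl⟩
  obtain ⟨φ, hφ, ⟨hφt, hφe⟩, hmin⟩ := A.exists_min (fun φ => (∀ i ≤ l, φ (t i) = t i) ∧
    ∀ i < l, ∃ j ∈ A.E, (φ (A.p j) = t i ∧ φ (A.q j) = t (i + 1)) ∨
      (φ (A.p j) = t (i + 1) ∧ φ (A.q j) = t i))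
    ⟨fun _ _ => rfl, fun i hi => (htadj i hi).2⟩
  have hmerge : ∀ x y : V, x ≠ y → y ∉ T → ∀ j ∈ A.E,
      ((φ (A.p j) = x ∧ φ (A.q j) = y) ∨ (φ (A.p j) = y ∧ φ (A.q j) = x)) → False := by
    intro x y hxy hy j hj h
    obtain ⟨hg, hlt⟩ := A.good_merge hφ hj hxy h
    have hty : ∀ i ≤ l, t i ≠ y := fun i hi h' => hy (h' ▸ htT i hi)
    have h2 := hmin (Cov.merge φ x y) hg ⟨fun i hi => by
        simp [Cov.merge, hφt i hi, hty i hi], fun i hi => by
      obtain ⟨j', hj', h'⟩ := hφe i hi
      refine ⟨j', hj', ?_⟩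
      rcases h' with ⟨e1, e2⟩ | ⟨e1, e2⟩
      · left
        exact ⟨by simp [Cov.merge, e1, hty i (by omega)],
          by simp [Cov.merge, e2, hty (i + 1) (by omega)]⟩
      · right
        exact ⟨by simp [Cov.merge, e1, hty (i + 1) (by omega)],
          by simp [Cov.merge, e2, hty i (by omega)]⟩⟩
    omega
  have hall : ∀ j ∈ A.E, φ (A.p j) ≠ φ (A.q j) → φ (A.p j) ∈ T ∧ φ (A.q j) ∈ T := by
    intro j hj hne
    constructor
    · by_contra hx
      exact hmerge _ _ hne.symm hx j hj (Or.inr ⟨rfl, rfl⟩)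
    · by_contra hx
      exact hmerge _ _ hne hx j hj (Or.inl ⟨rfl, rfl⟩)
  have := A.path_case' hk d e hd φ hφ l t hφt htinj hφe hall hcon
  omega

end Cov

open Cov in
/-- **A forest of bounded height.** -/
theorem Cov.forest (k d e : ℕ) (hk : 3 ≤ k) : ∃ l : ℕ, ∀ {V ι : Type} [Fintype V] [DecidableEq V]
    [Fintype ι] [DecidableEq ι] [Nonempty ι] (A : Cov V ι k), A.Eᶜ.card ≤ d →
    Fintype.card ι + 1 < Fintype.card V + e → ∀ v0 : V,
    ∃ (Rt : Finset V) (par : V → V) (ht : V → ℕ) (δ : V → ι), v0 ∈ Rt ∧ Rt.card ≤ d + 1 ∧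
      (∀ v, ht v ≤ l) ∧ (∀ v ∈ Rt, par v = v) ∧ (∀ v ∉ Rt, ht v = ht (par v) + 1) ∧
      (∀ v ∉ Rt, δ v ∈ A.E ∧ (A.p (δ v) = v ∧ A.q (δ v) = par v ∨
        A.p (δ v) = par v ∧ A.q (δ v) = v)) ∧
      (∀ v w, v ∉ Rt → w ∉ Rt → δ v = δ w → v = w) := by
  classical
  refine ⟨2 ^ (d + e) + 1, ?_⟩
  intro V ι _ _ _ _ _ A hd hcon v0
  have hnp := A.no_path hk d e hd hcon _ rfl
  set l := 2 ^ (d + e) + 1 with hl
  have hcomp := A.comp_card (by omega)
  have hιne : Nonempty ι := inferInstance
  -- the root of a component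
  set G := A.graph with hG
  set rt : V → V := fun v => if G.connectedComponentMk v = G.connectedComponentMk v0 then v0 else
    (G.connectedComponentMk v).out with hrt
  have hrt1 : ∀ v, G.Reachable (rt v) v := by
    intro v
    simp only [hrt]
    split_ifs with h
    · exact (SimpleGraph.ConnectedComponent.eq.mp h).symm
    · have : G.connectedComponentMk ((G.connectedComponentMk v).out) = G.connectedComponentMk v :=
        Quot.out_eq _
      exact SimpleGraph.ConnectedComponent.eq.mp this
  have hrt2 : ∀ v w, G.Reachable v w → rt v = rt w := by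
    intro v w h
    simp only [hrt]
    rw [SimpleGraph.ConnectedComponent.eq.mpr h]
  have hrt3 : ∀ v, rt (rt v) = rt v := fun v => hrt2 _ _ (hrt1 v)
  set Rt := univ.filter (fun v => rt v = v) with hRt
  have hmem : ∀ v, v ∈ Rt ↔ rt v = v := fun v => by
    rw [hRt, Finset.mem_filter]
    simp
  have hstep : ∀ v, v ∉ Rt → ∃ w, G.Adj v w ∧ G.dist (rt v) v = G.dist (rt v) w + 1 := by
    intro v hv
    rw [hmem] at hv
    obtain ⟨W, hW⟩ := (hrt1 v).exists_walk_length_eq_dist
    have hpos : 0 < W.length := by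
      rcases Nat.eq_zero_or_pos W.length with h0 | h0
      · exact absurd (SimpleGraph.Walk.eq_of_length_eq_zero h0) hv
      · exact h0
    obtain ⟨n, hn⟩ : ∃ n, W.length = n + 1 := ⟨W.length - 1, by omega⟩
    have hadj : G.Adj (W.getVert n) (W.getVert (n + 1)) := W.adj_getVert_succ (by omega)
    have hend : W.getVert (n + 1) = v := by rw [← hn, SimpleGraph.Walk.getVert_length]
    rw [hend] at hadj
    refine ⟨W.getVert n, hadj.symm, ?_⟩
    have h1 := SimpleGraph.dist_le (W.take n)
    have h2 : (W.take n).length = n := by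
      rw [SimpleGraph.Walk.take_length]
      omega
    have hru : G.Reachable (rt v) (W.getVert n) := ⟨W.take n⟩
    obtain ⟨w', hw'⟩ := hru.exists_walk_length_eq_dist
    have h3 := SimpleGraph.dist_le (w'.concat hadj)
    rw [SimpleGraph.Walk.length_concat] at h3
    omega
  have hpd : ∀ v, ∃ (w : V) (j : ι), v ∉ Rt → G.Adj v w ∧ G.dist (rt v) v = G.dist (rt v) w + 1 ∧
      j ∈ A.E ∧ ((A.p j = v ∧ A.q j = w) ∨ (A.p j = w ∧ A.q j = v)) := by
    intro v
    by_cases hv : v ∈ Rt
    · exact ⟨v, hιne.some, fun h => absurd hv h⟩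
    · obtain ⟨w, hw, hd'⟩ := hstep v hv
      have hadj := hw
      obtain ⟨-, j, hj, hj'⟩ := hw
      exact ⟨w, j, fun _ => ⟨hadj, hd', hj, hj'⟩⟩
  choose par δ hpδ using hpd
  refine ⟨Rt, fun v => if v ∈ Rt then v else par v, fun v => G.dist (rt v) v, δ, ?_, ?_, ?_, ?_, ?_,
    ?_, ?_⟩
  · rw [hmem]
    simp [hrt]
  · -- number of roots
    refine le_trans ?_ (hcomp.trans (Nat.add_le_add_right hd 1))
    refine Finset.card_le_card_of_injOn (fun v => G.connectedComponentMk v)
      (fun v _ => Finset.mem_image.mpr ⟨v, Finset.mem_univ _, rfl⟩) ?_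
    intro v hv w hw h
    rw [Finset.mem_coe, hmem] at hv hw
    have h' : G.Reachable v w := SimpleGraph.ConnectedComponent.eq.mp h
    rw [← hv, ← hw, hrt2 v w h']
  · intro v
    show G.dist (rt v) v ≤ l
    by_contra hlt
    push Not at hlt
    obtain ⟨W, hWp, hWl⟩ := (hrt1 v).exists_path_of_dist
    apply hnp
    refine ⟨W.getVert, ?_, fun i hi => W.adj_getVert_succ (by omega)⟩
    intro i hi j hj hij
    exact hWp.getVert_injOn (by simp only [Set.mem_setOf_eq]; omega)
      (by simp only [Set.mem_setOf_eq]; omega) hij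
  · intro v hv
    simp only [if_pos hv]
  · intro v hv
    obtain ⟨h1, h2, -, -⟩ := hpδ v hv
    simp only [if_neg hv]
    rw [h2, hrt2 v (par v) h1.reachable]
  · intro v hv
    obtain ⟨-, -, h3, h4⟩ := hpδ v hv
    simp only [if_neg hv]
    exact ⟨h3, h4⟩
  · intro v w hv hw h
    obtain ⟨a1, a2, -, a4⟩ := hpδ v hv
    obtain ⟨b1, b2, -, b4⟩ := hpδ w hw
    rw [← h] at b4
    rcases a4 with ⟨e1, e2⟩ | ⟨e1, e2⟩ <;> rcases b4 with ⟨f1, f2⟩ | ⟨f1, f2⟩
    · exact e1.symm.trans f1
    · have g1 : v = par w := e1.symm.trans f1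
      have g2 : par v = w := e2.symm.trans f2
      have g3 : rt v = rt w := by rw [hrt2 v (par v) a1.reachable, g2]
      rw [g2] at a2
      rw [← g1] at b2
      rw [g3] at a2
      omega
    · have g1 : par v = w := e1.symm.trans f1
      have g2 : v = par w := e2.symm.trans f2
      have g3 : rt v = rt w := by rw [hrt2 v (par v) a1.reachable, g1]
      rw [g1] at a2
      rw [← g2] at b2
      rw [g3] at a2
      omega
    · exact e2.symm.trans f2

end Pool.Agent.Helper66.AC
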