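import Pool.Agent.Helper2.KC.Merge2
import Pool.Agent.Helper2.KC.Forest

/-!
MP_1bf996_co (almost k-covers of the cube): covers by light members.
-/

set_option autoImplicit false

open Finset

namespace Pool.Agent.Helper2.KC

open Pool.Agent.Helper66.AC

section light

variable {α : Type} [Fintype α] [DecidableEq α]

/-- `β` involves at most two coordinates outside `Y`, and if it involves two, the sum of these two
coefficients is not one. -/
def Light (Y : Finset α) (β : α → ℝ) : Prop :=
  ∃ i j, i ∉ Y ∧ j ∉ Y ∧ i ≠ j ∧ (∀ m, m ∉ Y → m ≠ i → m ≠ j → β m = 0) ∧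
    (β j = 0 ∨ β i + β j ≠ 1)

/-- the vertex of the graph -/
def emb (Y : Finset α) (i : α) : Option {i : α // i ∉ Y} :=
  if h : i ∉ Y then some ⟨i, h⟩ else none

omit [Fintype α] in
theorem emb_pos {Y : Finset α} {i : α} (h : i ∉ Y) : emb Y i = some ⟨i, h⟩ := dif_pos h

omit [Fintype α] in
theorem emb_neg {Y : Finset α} {i : α} (h : i ∈ Y) : emb Y i = none := dif_neg (not_not.2 h)

omit [Fintype α] in
theorem emb_inj {Y : Finset α} {i j : α} (hi : i ∉ Y) (h : emb Y i = emb Y j) : i = j := by
  by_cases hj : j ∈ Y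
  · rw [emb_pos hi, emb_neg hj] at h
    exact absurd h (by simp)
  · rw [emb_pos hi, emb_pos hj] at h
    simpa using h

/-- the set of coordinates of a set of vertices -/
def uof (Y : Finset α) (X : Finset (Option {i : α // i ∉ Y})) : Finset α :=
  univ.filter fun i => emb Y i ∈ X

/-- the homogeneous vector -/
noncomputable def hvec (Y : Finset α) (β : α → ℝ) : Option {i : α // i ∉ Y} → ℝ
  | none => 2 - ∑ i : {i : α // i ∉ Y}, β i
  | some i => β i

theorem hvec_sum (Y : Finset α) (β : α → ℝ) : ∑ o, hvec Y β o = 2 := by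
  rw [Fintype.sum_option]
  simp [hvec]

theorem uof_sum {Y : Finset α} {X : Finset (Option {i : α // i ∉ Y})} (hX : none ∉ X)
    (β : α → ℝ) : ∑ i ∈ uof Y X, β i = ∑ i : {i : α // i ∉ Y}, if some i ∈ X then β i else 0 := by
  unfold uof
  rw [Finset.sum_filter, ← Fintype.sum_subtype_add_sum_subtype (fun i => i ∉ Y)]
  have h1 : ∑ i : {i : α // ¬ i ∉ Y}, (if emb Y (i : α) ∈ X then β i else 0) = 0 := by
    refine Finset.sum_eq_zero fun i _ => ?_
    rw [emb_neg (not_not.1 i.2), if_neg hX]
  rw [h1, add_zero]
  refine Finset.sum_congr rfl fun i _ => ?_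
  rw [emb_pos i.2]

theorem hvec_sum_none {Y : Finset α} {X : Finset (Option {i : α // i ∉ Y})} (hX : none ∉ X)
    (β : α → ℝ) : ∑ o ∈ X, hvec Y β o = ∑ i ∈ uof Y X, β i := by
  have h1 : ∑ o ∈ X, hvec Y β o = ∑ o, if o ∈ X then hvec Y β o else 0 := by
    rw [Finset.sum_ite_mem, Finset.univ_inter]
  rw [h1, Fintype.sum_option, if_neg hX, zero_add, uof_sum hX]
  rfl

/-- light members are edges (or dead) in the slice `z = 0` -/
theorem light_edge {Y : Finset α} {β : α → ℝ} (h : Light Y β) :
    ∃ p q : Option {i : α // i ∉ Y},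
      (∀ X : Finset (Option {i : α // i ∉ Y}), none ∉ X → ∑ i ∈ uof Y X, β i = 1 →
        (if p ∈ X then (1 : ℝ) else 0) + (if q ∈ X then 1 else 0) = 1) ∧
      ((p ≠ none ∨ q ≠ none) → ∀ m, m ∉ Y → (β m ≠ 0 ↔ emb Y m = p ∨ emb Y m = q)) := by
  obtain ⟨i, j, hi, hj, hij, h0, hs⟩ := h
  have hsum : ∀ X : Finset (Option {i : α // i ∉ Y}), none ∉ X → ∑ m ∈ uof Y X, β m =
      (if emb Y i ∈ X then β i else 0) + (if emb Y j ∈ X then β j else 0) := by
    intro X hX
    unfold uof
    rw [Finset.sum_filter, ← Finset.sum_pair hij (f := fun m => if emb Y m ∈ X then β m else 0)]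
    symm
    refine Finset.sum_subset (Finset.subset_univ _) fun m _ hm => ?_
    rw [Finset.mem_insert, Finset.mem_singleton, not_or] at hm
    by_cases hmY : m ∈ Y
    · rw [emb_neg hmY, if_neg hX]
    · rw [h0 m hmY hm.1 hm.2, ite_self]
  have hspec : ∀ m, m ∉ Y → β m ≠ 0 → m = i ∨ m = j := by
    intro m hm hm0
    by_contra hcon
    rw [not_or] at hcon
    exact hm0 (h0 m hm hcon.1 hcon.2)
  by_cases hj0 : β j = 0
  · by_cases hi0 : β i = 0
    · -- dead
      refine ⟨none, none, fun X hX h1 => ?_, fun h => by simp at h⟩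
      rw [hsum X hX, hi0, hj0] at h1
      simp at h1
    · -- loop at i
      refine ⟨emb Y i, none, fun X hX h1 => ?_, fun _ m hm => ⟨fun hm0 => ?_, fun hm' => ?_⟩⟩
      · rw [hsum X hX, hj0, ite_self, add_zero] at h1
        rw [if_neg hX, add_zero]
        by_cases hiX : emb Y i ∈ X
        · rw [if_pos hiX]
        · rw [if_neg hiX] at h1
          exact absurd h1 (by norm_num)
      · rcases hspec m hm hm0 with h | h
        · exact Or.inl (by rw [h])
        · rw [h] at hm0
          exact absurd hj0 hm0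
      · rcases hm' with h | h
        · rw [emb_inj hm h]
          exact hi0
        · rw [emb_pos hm] at h
          exact absurd h (by simp)
  · have hs1 : β i + β j ≠ 1 := hs.resolve_left hj0
    by_cases hi0 : β i = 0
    · -- dead
      refine ⟨none, none, fun X hX h1 => ?_, fun h => by simp at h⟩
      rw [hsum X hX, hi0, ite_self, zero_add] at h1
      by_cases hjX : emb Y j ∈ X
      · rw [if_pos hjX] at h1
        exact absurd (by rw [hi0, h1, zero_add]) hs1
      · rw [if_neg hjX] at h1
        exact absurd h1 (by norm_num)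
    · by_cases h11 : β i = 1 ∨ β j = 1
      · -- edge
        refine ⟨emb Y i, emb Y j, fun X hX h1 => ?_, fun _ m hm => ⟨fun hm0 => ?_, fun hm' => ?_⟩⟩
        · rw [hsum X hX] at h1
          by_cases hiX : emb Y i ∈ X
          · by_cases hjX : emb Y j ∈ X
            · rw [if_pos hiX, if_pos hjX] at h1
              exact absurd h1 hs1
            · rw [if_pos hiX, if_neg hjX, add_zero]
          · by_cases hjX : emb Y j ∈ X
            · rw [if_neg hiX, if_pos hjX, zero_add]
            · rw [if_neg hiX, if_neg hjX] at h1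
              exact absurd h1 (by norm_num)
        · rcases hspec m hm hm0 with h | h
          · exact Or.inl (by rw [h])
          · exact Or.inr (by rw [h])
        · rcases hm' with h | h
          · rw [emb_inj hm h]
            exact hi0
          · rw [emb_inj hm h]
            exact hj0
      · -- dead
        refine ⟨none, none, fun X hX h1 => ?_, fun h => by simp at h⟩
        rw [not_or] at h11
        rw [hsum X hX] at h1
        exfalso
        by_cases hiX : emb Y i ∈ X
        · by_cases hjX : emb Y j ∈ X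
          · rw [if_pos hiX, if_pos hjX] at h1
            exact hs1 h1
          · rw [if_pos hiX, if_neg hjX, add_zero] at h1
            exact h11.1 h1
        · by_cases hjX : emb Y j ∈ X
          · rw [if_neg hiX, if_pos hjX, zero_add] at h1
            exact h11.2 h1
          · rw [if_neg hiX, if_neg hjX] at h1
            exact absurd h1 (by norm_num)

/-- the edge vector -/
noncomputable def evec {Y : Finset α} (p q : Option {i : α // i ∉ Y}) (o : Option {i : α // i ∉ Y}) :
    ℝ := (if o = p then 1 else 0) + (if o = q then 1 else 0)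

theorem evec_sum {Y : Finset α} (p q : Option {i : α // i ∉ Y}) (X : Finset (Option {i : α // i ∉ Y})) :
    ∑ o ∈ X, evec p q o = (if p ∈ X then 1 else 0) + (if q ∈ X then 1 else 0) := by
  unfold evec
  rw [Finset.sum_add_distrib, Finset.sum_ite_eq', Finset.sum_ite_eq']

end light

/-- **Covers by light members.** -/
theorem light (k κ A : ℕ) (hk : 3 ≤ k) : ∃ n₀ : ℕ, ∀ {α ι : Type} [Fintype α] [DecidableEq α]
    [Fintype ι] [DecidableEq ι] (b : ι → α → ℝ),
    (∀ u : Finset α, u.Nonempty → k ≤ (univ.filter fun g => ∑ v ∈ u, b g v = 1).card) →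
    ∀ (Y : Finset α) (S : Finset ι), Y.card ≤ κ → S.card ≤ A → (∀ g ∉ S, Light Y (b g)) →
    n₀ ≤ Fintype.card α → Fintype.card α + k.choose 2 ≤ Fintype.card ι := by
  classical
  obtain ⟨l, hl⟩ := Cov.forest k A (k.choose 2 + κ) hk
  obtain ⟨n₀, hn₀⟩ := forest_bound k (κ + (A + 1)) l (by omega)
  refine ⟨n₀ + 1, ?_⟩
  intro α ι _ _ _ _ b hcov Y S hY hS hlight hn
  by_contra hcon
  push Not at hcon
  have hα : Nonempty α := Fintype.card_pos_iff.1 (by omega)
  have hι : Nonempty ι := by
    obtain ⟨j, -⟩ := Finset.card_pos.1 (lt_of_lt_of_le (by omega : 0 < k)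
      (hcov univ Finset.univ_nonempty))
    exact ⟨j⟩
  have hpq : ∀ g, ∃ p q : Option {i : α // i ∉ Y}, g ∉ S →
      (∀ X : Finset (Option {i : α // i ∉ Y}), none ∉ X → ∑ i ∈ uof Y X, b g i = 1 →
        (if p ∈ X then (1 : ℝ) else 0) + (if q ∈ X then 1 else 0) = 1) ∧
      ((p ≠ none ∨ q ≠ none) → ∀ m, m ∉ Y → (b g m ≠ 0 ↔ emb Y m = p ∨ emb Y m = q)) := by
    intro g
    by_cases hg : g ∈ S
    · exact ⟨none, none, fun h => absurd hg h⟩
    · obtain ⟨p, q, h⟩ := light_edge (hlight g hg)
      exact ⟨p, q, fun _ => h⟩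
  choose p q hpq using hpq
  set a : ι → Option {i : α // i ∉ Y} → ℝ := fun g => if g ∈ S then hvec Y (b g) else
    evec (p g) (q g) with ha
  have ha2 : ∀ g, ∑ o, a g o = 2 := by
    intro g
    simp only [ha]
    by_cases hg : g ∈ S
    · rw [if_pos hg, hvec_sum]
    · rw [if_neg hg, evec_sum]
      simp
      norm_num
  have hsub : ∀ X : Finset (Option {i : α // i ∉ Y}), none ∉ X → X.Nonempty →
      k ≤ (univ.filter fun g => ∑ o ∈ X, a g o = 1).card := by
    intro X hX hne
    have hu : (uof Y X).Nonempty := by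
      obtain ⟨o, ho⟩ := hne
      cases o with
      | none => exact absurd ho hX
      | some i =>
        refine ⟨i, ?_⟩
        unfold uof
        rw [Finset.mem_filter, emb_pos i.2]
        exact ⟨Finset.mem_univ _, ho⟩
    refine (hcov _ hu).trans (Finset.card_le_card fun g hg => ?_)
    rw [Finset.mem_filter] at hg ⊢
    refine ⟨Finset.mem_univ _, ?_⟩
    simp only [ha]
    by_cases hgS : g ∈ S
    · rw [if_pos hgS, hvec_sum_none hX]
      exact hg.2
    · rw [if_neg hgS, evec_sum]
      exact (hpq g hgS).1 X hX hg.2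
  let C : Cov (Option {i : α // i ∉ Y}) ι k :=
    { a := a
      cov := by
        intro X hne huniv
        by_cases hX : none ∈ X
        · have h1 := hsub Xᶜ (by simp [hX]) (by
            rw [Finset.nonempty_iff_ne_empty]
            intro h
            exact huniv (Finset.compl_eq_empty_iff X |>.mp h))
          refine h1.trans (Finset.card_le_card ?_)
          intro j hj
          rw [Finset.mem_filter] at hj ⊢
          refine ⟨Finset.mem_univ _, ?_⟩
          have h2 := Finset.sum_add_sum_compl X (a j)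
          rw [ha2] at h2
          linarith [hj.2]
        · exact hsub X hX hne
      E := Sᶜ
      p := p
      q := q
      edge := by
        intro g hg X
        rw [Finset.mem_compl] at hg
        simp only [ha]
        rw [if_neg hg, evec_sum] }
  have hVc : Fintype.card (Option {i : α // i ∉ Y}) + Y.card = Fintype.card α + 1 := by
    rw [Fintype.card_option]
    have h1 : Fintype.card {i : α // i ∉ Y} = Fintype.card α - Y.card := by
      rw [Fintype.card_subtype, ← Finset.card_compl]
      congr 1
      ext i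
      simp
    have h2 : Y.card ≤ Fintype.card α := Finset.card_le_univ _
    omega
  obtain ⟨Rt, par, ht, δ, hv0, hRt, hht, hroot, hpar, hδ, hinj⟩ := hl C (by
    show (Sᶜ)ᶜ.card ≤ A
    rw [compl_compl]
    exact hS) (by omega) none
  -- the special coordinates
  set Y' : Finset α := Y ∪ univ.filter (fun i => i ∉ Y ∧ emb Y i ∈ Rt) with hY'
  have hnY' : ∀ i, i ∉ Y' ↔ i ∉ Y ∧ emb Y i ∉ Rt := by
    intro i
    rw [hY', Finset.mem_union, Finset.mem_filter]
    simp only [Finset.mem_univ, true_and]
    tauto
  have hY'c : Y'.card ≤ κ + (A + 1) := by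
    refine (Finset.card_union_le _ _).trans (Nat.add_le_add hY ?_)
    refine le_trans ?_ hRt
    refine Finset.card_le_card_of_injOn (emb Y) (fun i hi => ?_) ?_
    · rw [Finset.mem_coe, Finset.mem_filter] at hi
      exact hi.2.2
    · intro i hi j hj hij
      rw [Finset.mem_coe, Finset.mem_filter] at hi
      exact emb_inj hi.2.1 hij
  -- the parent
  set pr : α → Option α := fun i => match par (emb Y i) with
    | none => none
    | some w => if some w ∈ Rt then none else some w.1 with hpr
  have hpr1 : ∀ i w, pr i = some w → ∃ h : w ∉ Y, par (emb Y i) = some ⟨w, h⟩ ∧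
      some ⟨w, h⟩ ∉ Rt := by
    intro i w h
    simp only [hpr] at h
    rcases hp : par (emb Y i) with _ | x
    · rw [hp] at h
      simp at h
    · rw [hp] at h
      by_cases hx : some x ∈ Rt
      · simp [hx] at h
      · simp only [hx, if_false, Option.some.injEq] at h
        subst h
        exact ⟨x.2, rfl, hx⟩
  -- structure of the own members
  have hown : ∀ i, i ∉ Y' → δ (emb Y i) ∉ S ∧ (∀ m, m ∉ Y → (b (δ (emb Y i)) m ≠ 0 ↔
      emb Y m = emb Y i ∨ emb Y m = par (emb Y i))) := by
    intro i hi
    obtain ⟨hiY, hiR⟩ := (hnY' i).1 hi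
    obtain ⟨hE, hpq'⟩ := hδ _ hiR
    have hgS : δ (emb Y i) ∉ S := Finset.mem_compl.1 hE
    refine ⟨hgS, ?_⟩
    have hne : emb Y i ≠ none := by
      rw [emb_pos hiY]
      simp
    have hcases : (p (δ (emb Y i)) = emb Y i ∧ q (δ (emb Y i)) = par (emb Y i)) ∨
        (p (δ (emb Y i)) = par (emb Y i) ∧ q (δ (emb Y i)) = emb Y i) := hpq'
    intro m hm
    rcases hcases with ⟨h1, h2⟩ | ⟨h1, h2⟩
    · have := (hpq _ hgS).2 (Or.inl (by rw [h1]; exact hne)) m hm
      rw [h1, h2] at this
      exact this
    · have := (hpq _ hgS).2 (Or.inr (by rw [h2]; exact hne)) m hm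
      rw [h1, h2] at this
      rw [this, or_comm]
  let F : Forest k l α ι :=
    { b := b
      cov := hcov
      Y := Y'
      par := pr
      ht := fun i => ht (emb Y i)
      δ := fun i => δ (emb Y i)
      hpar := by
        intro v hv w h
        obtain ⟨hvY, hvR⟩ := (hnY' v).1 hv
        obtain ⟨hw, hpw, hwR⟩ := hpr1 v w h
        rw [hnY', emb_pos hw]
        refine ⟨⟨hw, hwR⟩, ?_⟩
        rw [hpar _ hvR, hpw]
        exact Nat.lt_succ_self _
      hht := fun v => hht _
      inj := by
        intro v hv w hw h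
        obtain ⟨hvY, hvR⟩ := (hnY' v).1 hv
        obtain ⟨hwY, hwR⟩ := (hnY' w).1 hw
        exact emb_inj hvY (hinj _ _ hvR hwR h)
      supp := by
        intro v hv i hi
        by_cases hiY' : i ∈ Y'
        · exact Or.inl hiY'
        right
        obtain ⟨hiY, hiR⟩ := (hnY' i).1 hiY'
        rcases ((hown v hv).2 i hiY).1 hi with h | h
        · exact Or.inl (emb_inj hiY h)
        · right
          rw [emb_pos hiY] at h hiR
          simp only [hpr]
          rw [← h]
          simp only [hiR, if_false]
      nz := by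
        intro v hv
        obtain ⟨hvY, hvR⟩ := (hnY' v).1 hv
        exact ((hown v hv).2 v hvY).2 (Or.inl rfl) }
  have := hn₀ F hY'c (by omega)
  omega

end Pool.Agent.Helper2.KC
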