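import Pool.Agent.Helper2.KC.Star

/-!
MP_1bf996_co (almost k-covers of the cube): a cover with a forest of bounded height of own members.
Every coordinate `v` outside the bounded set `Y` has an own member `δ v` which involves only `Y`,
`v` and the parent of `v`.  Coordinates with the same sequence of patterns (type) are merged, except
for a large set `X` of leaves of the same type; then the kernel theorem applies.
-/

set_option autoImplicit false

open Finset

namespace Pool.Agent.Helper2.KC

/-- A cover with a forest of own members of height at most `l`. -/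
structure Forest (k l : ℕ) (α ι : Type) [Fintype α] [DecidableEq α] [Fintype ι]
    [DecidableEq ι] where
  /-- coefficients -/
  b : ι → α → ℝ
  cov : ∀ u : Finset α, u.Nonempty → k ≤ (univ.filter fun g => ∑ v ∈ u, b g v = 1).card
  /-- the special coordinates -/
  Y : Finset α
  /-- the parent, if it is not special -/
  par : α → Option α
  ht : α → ℕ
  δ : α → ι
  hpar : ∀ v ∉ Y, ∀ w, par v = some w → w ∉ Y ∧ ht w < ht v
  hht : ∀ v, ht v ≤ l
  inj : ∀ v ∉ Y, ∀ w ∉ Y, δ v = δ w → v = w
  supp : ∀ v ∉ Y, ∀ i, b (δ v) i ≠ 0 → i ∈ Y ∨ i = v ∨ par v = some i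
  nz : ∀ v ∉ Y, b (δ v) v ≠ 0

namespace Forest

variable {k l : ℕ} {α ι : Type} [Fintype α] [DecidableEq α] [Fintype ι] [DecidableEq ι]
variable (F : Forest k l α ι)

/-- coefficient of the parent -/
noncomputable def cp (v : α) : ℝ :=
  match F.par v with
  | none => 0
  | some w => F.b (F.δ v) w

/-- is the parent in `U` -/
def inp (v : α) (U : Finset α) : Bool :=
  match F.par v with
  | none => false
  | some w => decide (w ∈ U)

theorem sum_eq {v : α} (hv : v ∉ F.Y) (U : Finset α) :
    ∑ i ∈ U, F.b (F.δ v) i = ∑ i ∈ U ∩ F.Y, F.b (F.δ v) i +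
      (if F.inp v U = true then F.cp v else 0) + (if v ∈ U then F.b (F.δ v) v else 0) := by
  have h1 : ∑ i ∈ U, F.b (F.δ v) i = ∑ i ∈ U ∩ F.Y, F.b (F.δ v) i +
      ∑ i ∈ U \ F.Y, F.b (F.δ v) i := (Finset.sum_inter_add_sum_sdiff U F.Y _).symm
  rw [h1, add_assoc]
  congr 1
  have h2 : ∀ i ∈ U \ F.Y, F.b (F.δ v) i =
      (if F.par v = some i then F.b (F.δ v) i else 0) + (if i = v then F.b (F.δ v) v else 0) := by
    intro i hi
    rw [Finset.mem_sdiff] at hi
    by_cases hiv : i = v
    · subst hiv
      have : F.par i ≠ some i := fun h => lt_irrefl _ (F.hpar i hv i h).2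
      rw [if_neg this, if_pos rfl, zero_add]
    · rw [if_neg hiv, add_zero]
      by_cases hp : F.par v = some i
      · rw [if_pos hp]
      · rw [if_neg hp]
        by_contra h0
        rcases F.supp v hv i h0 with h | h | h
        · exact hi.2 h
        · exact hiv h
        · exact hp h
  rw [Finset.sum_congr rfl h2, Finset.sum_add_distrib]
  congr 1
  · unfold inp cp
    rcases hpv : F.par v with _ | w
    · simp
    · have hw := (F.hpar v hv w hpv).1
      simp only [Option.some.injEq, decide_eq_true_eq]
      rw [Finset.sum_ite_eq]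
      simp [hw]
  · rw [Finset.sum_ite_eq']
    simp [hv]

/-- the index set of patterns -/
def Q : Finset (Finset α × Bool × Bool) := F.Y.powerset ×ˢ (univ ×ˢ univ)

open Classical in
/-- the pattern of the own member -/
noncomputable def pat (v : α) : Finset (Finset α × Bool × Bool) :=
  F.Q.filter fun q => ∑ i ∈ q.1, F.b (F.δ v) i + (if q.2.1 = true then F.cp v else 0) +
    (if q.2.2 = true then F.b (F.δ v) v else 0) = 1

theorem mem_pat (v : α) (Z : Finset α) (hZ : Z ⊆ F.Y) (x y : Bool) :
    (Z, x, y) ∈ F.pat v ↔ ∑ i ∈ Z, F.b (F.δ v) i + (if x = true then F.cp v else 0) +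
    (if y = true then F.b (F.δ v) v else 0) = 1 := by
  unfold pat Q
  rw [Finset.mem_filter, Finset.mem_product, Finset.mem_product, Finset.mem_powerset]
  simp [hZ]

/-- ancestors -/
def anc (j : ℕ) (v : α) : Option α := (fun o : Option α => o.bind F.par)^[j] (some v)

theorem anc_none (j : ℕ) : (fun o : Option α => o.bind F.par)^[j] none = none := by
  induction j with
  | zero => rfl
  | succ j ih =>
    rw [Function.iterate_succ_apply]
    exact ih

theorem anc_succ (j : ℕ) (v : α) : F.anc (j + 1) v = (F.par v).bind (F.anc j) := by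
  unfold anc
  rw [Function.iterate_succ_apply]
  simp only [Option.bind_some]
  rcases F.par v with _ | w
  · simp only [Option.bind_none]
    exact F.anc_none j
  · rfl

theorem anc_ht (j : ℕ) : ∀ v ∉ F.Y, ∀ w, F.anc j v = some w → w ∉ F.Y ∧ F.ht w + j ≤ F.ht v := by
  induction j with
  | zero =>
    intro v hv w h
    have : v = w := by simpa [anc] using h
    subst this
    exact ⟨hv, le_refl _⟩
  | succ j ih =>
    intro v hv w h
    rw [F.anc_succ] at h
    rcases hp : F.par v with _ | x
    · rw [hp] at h
      simp at h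
    · rw [hp, Option.bind_some] at h
      obtain ⟨hx, hlt⟩ := F.hpar v hv x hp
      obtain ⟨h1, h2⟩ := ih x hx w h
      exact ⟨h1, by omega⟩

/-- the type -/
noncomputable def ty (v : α) : Fin (l + 1) → Option (Finset (Finset α × Bool × Bool)) :=
  fun j => (F.anc j v).map F.pat

theorem ty_pat {v w : α} (h : F.ty v = F.ty w) : F.pat v = F.pat w := by
  have h0 := congrFun h ⟨0, Nat.succ_pos l⟩
  simpa [ty, anc] using h0

/-- parents of vertices of the same type have the same type -/
theorem ty_par {v w : α} (hv : v ∉ F.Y) (hw : w ∉ F.Y) (h : F.ty v = F.ty w) :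
    (F.par v = none ∧ F.par w = none) ∨
      ∃ x y, F.par v = some x ∧ F.par w = some y ∧ F.ty x = F.ty y := by
  have hs : ∀ j : ℕ, j ≤ l → (F.anc j v).map F.pat = (F.anc j w).map F.pat := fun j hj =>
    congrFun h ⟨j, Nat.lt_succ_of_le hj⟩
  have hlast : ∀ v ∉ F.Y, F.anc (l + 1) v = none := by
    intro v hv
    rcases ha : F.anc (l + 1) v with _ | u
    · rfl
    · have := (F.anc_ht (l + 1) v hv u ha).2
      have := F.hht v
      omega
  have hs' : ∀ j : ℕ, j ≤ l + 1 → (F.anc j v).map F.pat = (F.anc j w).map F.pat := by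
    intro j hj
    rcases Nat.lt_or_ge l j with h1 | h1
    · have : j = l + 1 := by omega
      subst this
      rw [hlast v hv, hlast w hw]
    · exact hs j h1
  rcases hpv : F.par v with _ | x <;> rcases hpw : F.par w with _ | y
  · exact Or.inl ⟨rfl, rfl⟩
  · have h1 := hs' 1 (by omega)
    rw [show (1 : ℕ) = 0 + 1 from rfl, F.anc_succ, F.anc_succ, hpv, hpw] at h1
    simp [anc] at h1
  · have h1 := hs' 1 (by omega)
    rw [show (1 : ℕ) = 0 + 1 from rfl, F.anc_succ, F.anc_succ, hpv, hpw] at h1
    simp [anc] at h1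
  · refine Or.inr ⟨x, y, rfl, rfl, ?_⟩
    funext j
    have h1 := hs' (j + 1) (by omega)
    rw [F.anc_succ, F.anc_succ, hpv, hpw] at h1
    exact h1

/-- the set of all types -/
noncomputable def tys : Finset (Fin (l + 1) → Option (Finset (Finset α × Bool × Bool))) :=
  Fintype.piFinset fun _ => Finset.insertNone F.Q.powerset

theorem ty_mem (v : α) : F.ty v ∈ F.tys := by
  unfold tys
  rw [Fintype.mem_piFinset]
  intro j
  rw [Finset.mem_insertNone]
  intro s hs
  unfold ty at hs
  rw [Option.mem_def, Option.map_eq_some_iff] at hs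
  obtain ⟨w, -, rfl⟩ := hs
  rw [Finset.mem_powerset]
  exact Finset.filter_subset _ _

theorem tys_card {κ : ℕ} (hκ : F.Y.card ≤ κ) : F.tys.card ≤ (2 ^ (2 ^ κ * 4) + 1) ^ (l + 1) := by
  unfold tys
  rw [Fintype.card_piFinset_const, Finset.card_insertNone, Finset.card_powerset]
  refine Nat.pow_le_pow_left (Nat.add_le_add_right (Nat.pow_le_pow_right (by norm_num) ?_) 1) _
  unfold Q
  rw [Finset.card_product, Finset.card_powerset, Finset.card_product]
  simp only [Finset.card_univ, Fintype.card_bool]
  exact Nat.mul_le_mul (Nat.pow_le_pow_right (by norm_num) hκ) (by norm_num)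

/-- the leaves -/
def leaves : Finset α := univ.filter fun v => v ∉ F.Y ∧ ∀ w ∉ F.Y, F.par w ≠ some v

theorem anc_leaf : ∀ (m : ℕ) (u : α), u ∉ F.Y → l ≤ F.ht u + m →
    ∃ v ∈ F.leaves, ∃ j ≤ l, F.anc j v = some u := by
  intro m
  induction m with
  | zero =>
    intro u hu hl
    refine ⟨u, ?_, 0, Nat.zero_le _, rfl⟩
    unfold leaves
    rw [Finset.mem_filter]
    refine ⟨Finset.mem_univ _, hu, fun w hw h => ?_⟩
    have h1 := (F.hpar w hw u h).2
    have h2 := F.hht w
    omega
  | succ m ih =>
    intro u hu hl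
    by_cases hleaf : u ∈ F.leaves
    · exact ⟨u, hleaf, 0, Nat.zero_le _, rfl⟩
    · unfold leaves at hleaf
      rw [Finset.mem_filter] at hleaf
      push Not at hleaf
      obtain ⟨w, hw, hwu⟩ := hleaf (Finset.mem_univ _) hu
      have h1 := (F.hpar w hw u hwu).2
      obtain ⟨v, hv, j, -, hj⟩ := ih w hw (by omega)
      have hvY : v ∉ F.Y := by
        unfold leaves at hv
        rw [Finset.mem_filter] at hv
        exact hv.2.1
      have hstep : F.anc (j + 1) v = some u := by
        unfold anc at hj ⊢
        rw [Function.iterate_succ_apply', hj]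
        exact hwu
      have h2 := (F.anc_ht (j + 1) v hvY u hstep).2
      have h3 := F.hht v
      exact ⟨v, hv, j + 1, by omega, hstep⟩

theorem card_leaves : Fintype.card α ≤ F.Y.card + F.leaves.card * (l + 1) := by
  have h1 : (F.Yᶜ).image some ⊆ (F.leaves ×ˢ Finset.range (l + 1)).image
      (fun q => F.anc q.2 q.1) := by
    intro o ho
    rw [Finset.mem_image] at ho
    obtain ⟨u, hu, rfl⟩ := ho
    rw [Finset.mem_compl] at hu
    obtain ⟨v, hv, j, hj, h⟩ := F.anc_leaf l u hu (by omega)
    rw [Finset.mem_image]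
    exact ⟨(v, j), Finset.mem_product.2 ⟨hv, Finset.mem_range.2 (by omega)⟩, h⟩
  have h2 := Finset.card_le_card h1
  rw [Finset.card_image_of_injective _ (Option.some_injective α), Finset.card_compl] at h2
  have h3 : ((F.leaves ×ˢ Finset.range (l + 1)).image (fun q => F.anc q.2 q.1)).card ≤
      F.leaves.card * (l + 1) := by
    refine Finset.card_image_le.trans ?_
    rw [Finset.card_product, Finset.card_range]
  omega

end Forest

end Pool.Agent.Helper2.KC
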