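import Pool.Agent.Helper2.KC.Merge

/-!
MP_1bf996_co (almost k-covers of the cube): merging the coordinates of the same type.
-/

set_option autoImplicit false

open Finset

namespace Pool.Agent.Helper2.KC

namespace Forest

variable {k l : ℕ} {α ι : Type} [Fintype α] [DecidableEq α] [Fintype ι] [DecidableEq ι]
variable (F : Forest k l α ι)

/-- the coefficients after merging along `φ` -/
noncomputable def qb (φ : α → α) (g : ι) (i : α) : ℝ := ∑ v ∈ univ.filter (fun v => φ v = i), F.b g v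

theorem sum_qb (φ : α → α) (g : ι) (u : Finset α) :
    ∑ i ∈ u, F.qb φ g i = ∑ v ∈ univ.filter (fun v => φ v ∈ u), F.b g v := by
  rw [← Finset.sum_fiberwise_of_maps_to (s := univ.filter (fun v => φ v ∈ u)) (t := u) (g := φ)
    (fun v hv => (Finset.mem_filter.mp hv).2)]
  refine Finset.sum_congr rfl fun i hi => ?_
  unfold qb
  refine Finset.sum_congr ?_ fun _ _ => rfl
  ext v
  simp only [Finset.mem_filter, Finset.mem_univ, true_and]
  constructor
  · intro h
    exact ⟨h ▸ hi, h⟩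
  · exact fun h => h.2

/-- merging data: `X` leaves of one type, `φ` fixes `Y` and `X` and sends the other coordinates to
representatives of their types -/
structure Merging (X : Finset α) (φ : α → α) : Prop where
  leaf : X ⊆ F.leaves
  same : ∀ x ∈ X, ∀ y ∈ X, F.ty x = F.ty y
  fY : ∀ v ∈ F.Y, φ v = v
  fX : ∀ v ∈ X, φ v = v
  nY : ∀ v, v ∉ F.Y → v ∉ X → φ v ∉ F.Y
  nX : ∀ v, v ∉ F.Y → v ∉ X → φ v ∉ X
  rep : ∀ v w, v ∉ F.Y → v ∉ X → w ∉ F.Y → w ∉ X → F.ty v = F.ty w → φ v = φ w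
  tyφ : ∀ v, v ∉ F.Y → v ∉ X → F.ty (φ v) = F.ty v

theorem exists_merging (X : Finset α) (hX : X ⊆ F.leaves)
    (hs : ∀ x ∈ X, ∀ y ∈ X, F.ty x = F.ty y) : ∃ φ : α → α, F.Merging X φ := by
  classical
  set φ : α → α := fun v => if v ∈ F.Y ∨ v ∈ X then v else
    @Classical.epsilon α ⟨v⟩ (fun r => r ∉ F.Y ∧ r ∉ X ∧ F.ty r = F.ty v) with hφ
  have h1 : ∀ v, (v ∈ F.Y ∨ v ∈ X) → φ v = v := fun v hv => by
    simp only [hφ]
    rw [if_pos hv]
  have h2 : ∀ v, v ∉ F.Y → v ∉ X → φ v ∉ F.Y ∧ φ v ∉ X ∧ F.ty (φ v) = F.ty v := by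
    intro v hv1 hv2
    have h3 : φ v = @Classical.epsilon α ⟨v⟩ (fun r => r ∉ F.Y ∧ r ∉ X ∧ F.ty r = F.ty v) := by
      simp only [hφ]
      rw [if_neg (not_or.2 ⟨hv1, hv2⟩)]
    rw [h3]
    exact Classical.epsilon_spec (p := fun r => r ∉ F.Y ∧ r ∉ X ∧ F.ty r = F.ty v)
      ⟨v, hv1, hv2, rfl⟩
  refine ⟨φ, hX, hs, fun v hv => h1 v (Or.inl hv), fun v hv => h1 v (Or.inr hv),
    fun v hv1 hv2 => (h2 v hv1 hv2).1, fun v hv1 hv2 => (h2 v hv1 hv2).2.1, ?_,
    fun v hv1 hv2 => (h2 v hv1 hv2).2.2⟩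
  intro v w hv1 hv2 hw1 hw2 h
  simp only [hφ]
  rw [if_neg (not_or.2 ⟨hv1, hv2⟩), if_neg (not_or.2 ⟨hw1, hw2⟩)]
  rw [h]

namespace Merging

variable {F} {X : Finset α} {φ : α → α} (M : F.Merging X φ)
include M

theorem XY : ∀ x ∈ X, x ∉ F.Y := by
  intro x hx
  have := M.leaf hx
  unfold leaves at this
  rw [Finset.mem_filter] at this
  exact this.2.1

theorem Xpar : ∀ x ∈ X, ∀ w ∉ F.Y, F.par w ≠ some x := by
  intro x hx
  have := M.leaf hx
  unfold leaves at this
  rw [Finset.mem_filter] at this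
  exact this.2.2

theorem φ_mem_X {v : α} : φ v ∈ X ↔ v ∈ X := by
  constructor
  · intro h
    by_contra hv
    by_cases hvY : v ∈ F.Y
    · rw [M.fY v hvY] at h
      exact hv h
    · exact M.nX v hvY hv h
  · intro h
    rw [M.fX v h]
    exact h

theorem φ_mem_Y {v : α} : φ v ∈ F.Y ↔ v ∈ F.Y := by
  constructor
  · intro h
    by_contra hv
    by_cases hvX : v ∈ X
    · rw [M.fX v hvX] at h
      exact hv h
    · exact M.nY v hv hvX h
  · intro h
    rw [M.fY v h]
    exact h

/-- preimage of a set of coordinates -/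
theorem inp_eq {v w : α} (hv : v ∉ F.Y) (hw : w ∉ F.Y) (h : F.ty v = F.ty w) (u : Finset α) :
    F.inp v (univ.filter fun x => φ x ∈ u) = F.inp w (univ.filter fun x => φ x ∈ u) := by
  unfold inp
  rcases F.ty_par hv hw h with ⟨h1, h2⟩ | ⟨x, y, h1, h2, h3⟩
  · rw [h1, h2]
  · rw [h1, h2]
    simp only [Finset.mem_filter, Finset.mem_univ, true_and]
    have hx := (F.hpar v hv x h1).1
    have hy := (F.hpar w hw y h2).1
    have hxX : x ∉ X := fun hxX => M.Xpar x hxX v hv h1
    have hyX : y ∉ X := fun hyX => M.Xpar y hyX w hw h2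
    rw [M.rep x y hx hxX hy hyX h3]

/-- own members of coordinates of the same type are hit at the same time -/
theorem hit_eq {v w : α} (hv : v ∉ F.Y) (hw : w ∉ F.Y) (h : F.ty v = F.ty w) {u : Finset α}
    (hvw : φ v ∈ u ↔ φ w ∈ u) :
    ∑ i ∈ u, F.qb φ (F.δ v) i = 1 ↔ ∑ i ∈ u, F.qb φ (F.δ w) i = 1 := by
  rw [F.sum_qb, F.sum_qb, F.sum_eq hv, F.sum_eq hw, M.inp_eq hv hw h u]
  have hp := F.ty_pat h
  set U := univ.filter fun x => φ x ∈ u with hU
  have e1 := F.mem_pat v (U ∩ F.Y) Finset.inter_subset_right (F.inp w U) (decide (v ∈ U))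
  have e2 := F.mem_pat w (U ∩ F.Y) Finset.inter_subset_right (F.inp w U) (decide (w ∈ U))
  have e3 : (decide (v ∈ U)) = decide (w ∈ U) := by
    simp only [hU, Finset.mem_filter, Finset.mem_univ, true_and, hvw]
  simp only [decide_eq_true_eq] at e1 e2
  rw [← e1, ← e2, hp, e3]

/-- the values with the own coordinate added -/
theorem hit_eq1 {v w : α} (hv : v ∉ F.Y) (hw : w ∉ F.Y) (h : F.ty v = F.ty w) {u : Finset α}
    (hv' : φ v ∉ u) (hw' : φ w ∉ u) :
    ∑ i ∈ u, F.qb φ (F.δ v) i + F.b (F.δ v) v = 1 ↔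
      ∑ i ∈ u, F.qb φ (F.δ w) i + F.b (F.δ w) w = 1 := by
  rw [F.sum_qb, F.sum_qb, F.sum_eq hv, F.sum_eq hw, M.inp_eq hv hw h u]
  have hp := F.ty_pat h
  set U := univ.filter fun x => φ x ∈ u with hU
  have e1 := F.mem_pat v (U ∩ F.Y) Finset.inter_subset_right (F.inp w U) true
  have e2 := F.mem_pat w (U ∩ F.Y) Finset.inter_subset_right (F.inp w U) true
  have e3 : v ∉ U := by
    simp only [hU, Finset.mem_filter, Finset.mem_univ, true_and]
    exact hv'
  have e4 : w ∉ U := by
    simp only [hU, Finset.mem_filter, Finset.mem_univ, true_and]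
    exact hw'
  simp only [if_true] at e1 e2
  rw [if_neg e3, if_neg e4, add_zero, add_zero, ← e1, ← e2, hp]

/-- coefficients on `X` are unchanged -/
theorem qb_X {x : α} (hx : x ∈ X) (g : ι) : F.qb φ g x = F.b g x := by
  unfold qb
  have : univ.filter (fun v => φ v = x) = {x} := by
    ext v
    simp only [Finset.mem_filter, Finset.mem_univ, true_and, Finset.mem_singleton]
    constructor
    · intro h
      have hv : v ∈ X := M.φ_mem_X.1 (h ▸ hx)
      rw [M.fX v hv] at h
      exact h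
    · rintro rfl
      exact M.fX v hx
  rw [this, Finset.sum_singleton]

theorem own_X {v x : α} (hv : v ∉ F.Y) (hx : x ∈ X) (hvx : x ≠ v) : F.qb φ (F.δ v) x = 0 := by
  rw [M.qb_X hx]
  by_contra h0
  rcases F.supp v hv x h0 with h | h | h
  · exact M.XY x hx h
  · exact hvx h
  · exact M.Xpar x hx v hv h

theorem mem_D {v : α} (hv : v ∈ univ.image φ) (hvX : v ∉ X) (hvY : v ∉ F.Y) :
    ∃ w, w ∉ F.Y ∧ w ∉ X ∧ φ w = v := by
  rw [Finset.mem_image] at hv
  obtain ⟨w, -, hw⟩ := hv
  refine ⟨w, fun h => hvY ?_, fun h => hvX ?_, hw⟩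
  · rw [← hw, M.fY w h]
    exact h
  · rw [← hw, M.fX w h]
    exact h

theorem φφ {v : α} : φ (φ v) = φ v := by
  by_cases hY : v ∈ F.Y
  · rw [M.fY v hY, M.fY v hY]
  by_cases hX : v ∈ X
  · rw [M.fX v hX, M.fX v hX]
  · exact M.rep (φ v) v (M.nY v hY hX) (M.nX v hY hX) hY hX (M.tyφ v hY hX)

end Merging

/-- the star data after merging -/
noncomputable def starData {X : Finset α} {φ : α → α} (M : F.Merging X φ) : StarData k α ι where
  b := F.qb φ
  D := univ.image φ
  X := X
  XD := fun x hx => Finset.mem_image.2 ⟨x, Finset.mem_univ _, M.fX x hx⟩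
  R := F.δ
  S := univ \ (F.Yᶜ).image F.δ
  E := (univ.image φ \ (F.Y ∪ X)).image F.δ
  disj := by
    rw [Finset.disjoint_left]
    intro g hg hg'
    rw [Finset.mem_sdiff] at hg
    apply hg.2
    rw [Finset.mem_image] at hg' ⊢
    obtain ⟨v, hv, rfl⟩ := hg'
    rw [Finset.mem_sdiff, Finset.mem_union, not_or] at hv
    exact ⟨v, Finset.mem_compl.2 hv.2.1, rfl⟩
  RS := by
    intro i hi h
    rw [Finset.mem_sdiff] at h
    exact h.2 (Finset.mem_image.2 ⟨i, Finset.mem_compl.2 (M.XY i hi), rfl⟩)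
  RE := by
    intro i hi h
    rw [Finset.mem_image] at h
    obtain ⟨v, hv, hvi⟩ := h
    rw [Finset.mem_sdiff, Finset.mem_union, not_or] at hv
    have := F.inj v hv.2.1 i (M.XY i hi) hvi
    exact hv.2.2 (this ▸ hi)
  hE := by
    intro g hg x hx
    rw [Finset.mem_image] at hg
    obtain ⟨v, hv, rfl⟩ := hg
    rw [Finset.mem_sdiff, Finset.mem_union, not_or] at hv
    exact M.own_X hv.2.1 hx (fun h => hv.2.2 (h ▸ hx))
  R1 := by
    intro i hi
    rw [M.qb_X hi]
    exact F.nz i (M.XY i hi)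
  R2 := by
    intro i hi j hj hji
    exact M.own_X (M.XY i hi) hj hji
  pat0 := by
    intro i hi j hj z _ hz
    refine M.hit_eq (M.XY i hi) (M.XY j hj) (M.same i hi j hj) ?_
    rw [M.fX i hi, M.fX j hj]
    have e1 : i ∉ z := fun h => Finset.disjoint_left.1 hz h hi
    have e2 : j ∉ z := fun h => Finset.disjoint_left.1 hz h hj
    exact ⟨fun h => absurd h e1, fun h => absurd h e2⟩
  pat1 := by
    intro i hi j hj z _ hz
    rw [M.qb_X hi, M.qb_X hj]
    refine M.hit_eq1 (M.XY i hi) (M.XY j hj) (M.same i hi j hj) ?_ ?_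
    · rw [M.fX i hi]
      exact fun h => Finset.disjoint_left.1 hz h hi
    · rw [M.fX j hj]
      exact fun h => Finset.disjoint_left.1 hz h hj
  cov := by
    intro u huD hune
    by_cases hex : ∃ v, v ∉ F.Y ∧ v ∉ X ∧ ∑ i ∈ u, F.qb φ (F.δ v) i = 1
    · left
      obtain ⟨v, hvY, hvX, hv⟩ := hex
      refine ⟨F.δ (φ v), ?_, ?_⟩
      · rw [Finset.mem_image]
        refine ⟨φ v, ?_, rfl⟩
        rw [Finset.mem_sdiff, Finset.mem_union, not_or]
        exact ⟨Finset.mem_image.2 ⟨v, Finset.mem_univ _, rfl⟩, M.nY v hvY hvX, M.nX v hvY hvX⟩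
      · refine (M.hit_eq (M.nY v hvY hvX) hvY (M.tyφ v hvY hvX) ?_).2 hv
        rw [M.φφ]
    · right
      push Not at hex
      have hU : (univ.filter fun v => φ v ∈ u).Nonempty := by
        obtain ⟨i, hi⟩ := hune
        have := huD hi
        rw [Finset.mem_image] at this
        obtain ⟨v, -, hv⟩ := this
        exact ⟨v, Finset.mem_filter.2 ⟨Finset.mem_univ _, hv ▸ hi⟩⟩
      have hc := F.cov _ hU
      simp only [← F.sum_qb] at hc
      refine hc.trans ?_
      have hsub : (univ.filter fun g => ∑ i ∈ u, F.qb φ g i = 1) ⊆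
          ((univ \ (F.Yᶜ).image F.δ).filter fun g => ∑ v ∈ u, F.qb φ g v = 1) ∪
          (X.filter fun i => ∑ v ∈ u, F.qb φ (F.δ i) v = 1).image F.δ := by
        intro g hg
        rw [Finset.mem_filter] at hg
        rw [Finset.mem_union]
        by_cases hgS : g ∈ (F.Yᶜ).image F.δ
        · right
          rw [Finset.mem_image] at hgS
          obtain ⟨v, hv, rfl⟩ := hgS
          rw [Finset.mem_compl] at hv
          have hvX : v ∈ X := by
            by_contra hvX
            exact hex v hv hvX hg.2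
          exact Finset.mem_image.2 ⟨v, Finset.mem_filter.2 ⟨hvX, hg.2⟩, rfl⟩
        · left
          rw [Finset.mem_filter, Finset.mem_sdiff]
          exact ⟨⟨Finset.mem_univ _, hgS⟩, hg.2⟩
      refine (Finset.card_le_card hsub).trans ((Finset.card_union_le _ _).trans ?_)
      exact Nat.add_le_add_left Finset.card_image_le _

end Forest

/-- **The forest theorem.** -/
theorem forest_bound (k κ l : ℕ) (hk : 1 ≤ k) : ∃ n₀ : ℕ, ∀ {α ι : Type} [Fintype α]
    [DecidableEq α] [Fintype ι] [DecidableEq ι] (F : Forest k l α ι), F.Y.card ≤ κ →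
    n₀ ≤ Fintype.card α → Fintype.card α + k.choose 2 ≤ Fintype.card ι := by
  classical
  obtain ⟨m₀, hm₀⟩ := star k (k.choose 2 + κ) hk
  set t := (2 ^ (2 ^ κ * 4) + 1) ^ (l + 1) with ht
  refine ⟨κ + (t * m₀ + 1) * (l + 1), ?_⟩
  intro α ι _ _ _ _ F hκ hn
  by_contra hcon
  push Not at hcon
  have hL : t * m₀ < F.leaves.card := by
    have h1 := F.card_leaves
    by_contra hlt
    push Not at hlt
    have h2 : F.leaves.card * (l + 1) ≤ (t * m₀) * (l + 1) := Nat.mul_le_mul_right _ hlt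
    have h3 : (t * m₀ + 1) * (l + 1) = (t * m₀) * (l + 1) + (l + 1) := by ring
    omega
  have hL2 : F.tys.card * m₀ < F.leaves.card :=
    lt_of_le_of_lt (Nat.mul_le_mul_right _ (F.tys_card hκ)) hL
  obtain ⟨τ, -, hτ⟩ := Finset.exists_lt_card_fiber_of_mul_lt_card_of_maps_to
    (s := F.leaves) (t := F.tys) (f := F.ty) (fun v _ => F.ty_mem v) hL2
  set X := F.leaves.filter fun v => F.ty v = τ with hX
  obtain ⟨φ, M⟩ := F.exists_merging X (Finset.filter_subset _ _) (by
    intro x hx y hy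
    rw [hX, Finset.mem_filter] at hx hy
    rw [hx.2, hy.2])
  have hYc : (F.Yᶜ.image F.δ).card = Fintype.card α - F.Y.card := by
    rw [Finset.card_image_of_injOn, Finset.card_compl]
    intro v hv w hw h
    rw [Finset.mem_coe, Finset.mem_compl] at hv hw
    exact F.inj v hv w hw h
  have hSc : (F.starData M).S.card + (Fintype.card α - F.Y.card) = Fintype.card ι := by
    have h1 := Finset.card_sdiff_add_card_eq_card (Finset.subset_univ (F.Yᶜ.image F.δ))
    rw [hYc, Finset.card_univ] at h1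
    exact h1
  have hYle : F.Y.card ≤ Fintype.card α := Finset.card_le_univ _
  have hres := hm₀ (F.starData M) (by omega) hτ.le
  have hEc : (F.starData M).E.card + (F.Y.card + X.card) = (F.starData M).D.card := by
    have hYX : Disjoint F.Y X := by
      rw [Finset.disjoint_right]
      exact fun x hx => M.XY x hx
    have hsub : F.Y ∪ X ⊆ univ.image φ := by
      intro x hx
      rw [Finset.mem_image]
      rw [Finset.mem_union] at hx
      rcases hx with hx | hx
      · exact ⟨x, Finset.mem_univ _, M.fY x hx⟩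
      · exact ⟨x, Finset.mem_univ _, M.fX x hx⟩
    have h1 := Finset.card_sdiff_add_card_eq_card hsub
    rw [Finset.card_union_of_disjoint hYX] at h1
    have h2 : (F.starData M).E.card = (univ.image φ \ (F.Y ∪ X)).card := by
      refine Finset.card_image_of_injOn ?_
      intro v hv w hw h
      rw [Finset.mem_coe, Finset.mem_sdiff, Finset.mem_union, not_or] at hv hw
      exact F.inj v hv.2.1 w hw.2.1 h
    rw [h2]
    exact h1
  have hXc : (F.starData M).X.card = X.card := rfl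
  omega

end Pool.Agent.Helper2.KC
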