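import Pool.Agent.Helper66.AC.Poly

/-!
MP_1bf996_co (almost k-covers of the cube): the polynomial lemma with a kernel.
-/

open Finset Polynomial

namespace Pool.Agent.Helper2.KC

variable {ρ ω : Type*} [DecidableEq ρ]

/-- the product of the affine functions at the vertex `u` -/
noncomputable def G (W : Finset ω) (a : ω → ρ → ℝ) (lam : ω → ℝ) (u : Finset ρ) : ℝ[X] :=
  ∏ w ∈ W, ((C 1 - C (lam w) * X) - C (∑ i ∈ u, a w i))

theorem G_eq_zero {W : Finset ω} {a : ω → ρ → ℝ} {lam : ω → ℝ} {u : Finset ρ}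
    (h : ∃ w ∈ W, lam w = 0 ∧ ∑ i ∈ u, a w i = 1) : G W a lam u = 0 := by
  obtain ⟨w, hw, h1, h2⟩ := h
  unfold G
  refine Finset.prod_eq_zero hw ?_
  rw [h1, h2]
  simp

/-- divisibility by the product of powers of linear factors -/
theorem dvd_G {W : Finset ω} {a : ω → ρ → ℝ} {lam : ω → ℝ} {u : Finset ρ} (T : Finset ℕ) (k : ℕ)
    (x : ℕ → ℝ) (hx : ∀ s ∈ T, ∀ t ∈ T, s ≠ t → x s ≠ x t)
    (h : ∀ t ∈ T, k - t ≤ (W.filter fun w => ∑ i ∈ u, a w i + lam w * x t = 1).card) :
    ∏ t ∈ T, (X - C (x t)) ^ (k - t) ∣ G W a lam u := by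
  classical
  refine Finset.prod_dvd_of_coprime ?_ ?_
  · intro s hs t ht hst
    refine IsCoprime.pow ?_
    refine Polynomial.isCoprime_X_sub_C_of_isUnit_sub ?_
    rw [isUnit_iff_ne_zero, sub_ne_zero]
    exact hx s hs t ht hst
  · intro t ht
    set T' := W.filter (fun w => ∑ i ∈ u, a w i + lam w * x t = 1) with hT
    have hd1 : (X - C (x t)) ^ T'.card ∣ ∏ w ∈ T', ((C 1 - C (lam w) * X) - C (∑ i ∈ u, a w i)) := by
      rw [← Finset.prod_const]
      refine Finset.prod_dvd_prod_of_dvd _ _ fun w hw => ?_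
      rw [hT, Finset.mem_filter] at hw
      rw [Polynomial.dvd_iff_isRoot]
      simp only [Polynomial.IsRoot, Polynomial.eval_sub, Polynomial.eval_mul,
        Polynomial.eval_C, Polynomial.eval_X]
      linarith [hw.2]
    have hd2 : ∏ w ∈ T', ((C 1 - C (lam w) * X) - C (∑ i ∈ u, a w i)) ∣ G W a lam u :=
      Finset.prod_dvd_prod_of_subset _ _ _ (Finset.filter_subset _ _)
    exact ((pow_dvd_pow _ (h t ht)).trans hd1).trans hd2

theorem degree_nodes (T : Finset ℕ) (k : ℕ) (x : ℕ → ℝ) :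
    (∏ t ∈ T, (X - C (x t)) ^ (k - t) : ℝ[X]).degree = ((∑ t ∈ T, (k - t) : ℕ) : WithBot ℕ) := by
  have hm : (∏ t ∈ T, (X - C (x t)) ^ (k - t) : ℝ[X]).Monic :=
    Polynomial.monic_prod_of_monic _ _ fun t _ => (Polynomial.monic_X_sub_C _).pow _
  rw [Polynomial.degree_eq_natDegree hm.ne_zero,
    Polynomial.natDegree_prod_of_monic _ _ fun t _ => (Polynomial.monic_X_sub_C _).pow _]
  congr 1
  refine Finset.sum_congr rfl fun t _ => ?_
  rw [Polynomial.natDegree_pow, Polynomial.natDegree_X_sub_C, mul_one]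

theorem sum_Ico_sub (k : ℕ) : ∑ t ∈ Finset.Ico 1 k, (k - t) = k.choose 2 := by
  rcases Nat.eq_zero_or_pos k with rfl | hk
  · simp
  · obtain ⟨m, rfl⟩ : ∃ m, k = m + 1 := ⟨k - 1, by omega⟩
    rw [Finset.sum_Ico_eq_sum_range]
    have : ∀ i, m + 1 - (1 + i) = m - i := fun i => by omega
    simp_rw [this]
    exact Pool.Agent.Helper66.AC.sum_sub_range m

/-- The polynomial lemma. The vertices `u ⊆ R` which are not hit by a constant function (`lam = 0`)
satisfy: if `y ∉ u` then the level `t` is hit `k - t` times, and if `y ∈ u` then the level `m - t`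
is hit `k - t` times. -/
theorem kernel_poly (R : Finset ρ) (y : ρ) (hy : y ∈ R) (W : Finset ω) (a : ω → ρ → ℝ)
    (lam : ω → ℝ) (k m : ℕ) (hk : 1 ≤ k)
    (h0 : ∀ u ⊆ R, y ∉ u → (∃ w ∈ W, lam w = 0 ∧ ∑ i ∈ u, a w i = 1) ∨
      (u.Nonempty → ∃ w ∈ W, ∑ i ∈ u, a w i = 1) ∧ ∀ t : ℕ, 1 ≤ t → t < k →
        k - t ≤ (W.filter fun w => ∑ i ∈ u, a w i + lam w * t = 1).card)
    (h1 : ∀ u ⊆ R, y ∈ u → (∃ w ∈ W, lam w = 0 ∧ ∑ i ∈ u, a w i = 1) ∨ ∀ t : ℕ, t < k →
        k - t ≤ (W.filter fun w => ∑ i ∈ u, a w i + lam w * ((m : ℝ) - t) = 1).card) :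
    R.card + k.choose 2 ≤ W.card := by
  classical
  by_contra hcon
  push Not at hcon
  set c : ω → ℝ[X] := fun w => C 1 - C (lam w) * X with hc
  have hcdeg : ∀ w, (c w).natDegree ≤ 1 := by
    intro w
    simp only [hc]
    refine (Polynomial.natDegree_sub_le _ _).trans ?_
    refine max_le ?_ ?_
    · rw [Polynomial.natDegree_C]; norm_num
    · exact (Polynomial.natDegree_C_mul_le _ _).trans Polynomial.natDegree_X_le
  set F : ℝ[X] := ∑ u ∈ R.powerset, (-1 : ℝ[X]) ^ u.card * G W a lam u with hF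
  set F0 : ℝ[X] := ∑ u ∈ (R.erase y).powerset, (-1 : ℝ[X]) ^ u.card * G W a lam u with hF0
  set F1 : ℝ[X] := ∑ u ∈ (R.erase y).powerset, (-1 : ℝ[X]) ^ (insert y u).card *
    G W a lam (insert y u) with hF1
  have hsum : F = F0 + F1 := by
    rw [hF, hF0, hF1]
    conv_lhs => rw [← Finset.insert_erase hy]
    exact Finset.sum_powerset_insert (Finset.notMem_erase y R) _
  have hFdeg : F.degree < ((k.choose 2 : ℕ) : WithBot ℕ) :=
    Pool.Agent.Helper66.AC.altsum_degree a W R c hcdeg (k.choose 2) hcon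
  have hRpos : 0 < R.card := Finset.card_pos.2 ⟨y, hy⟩
  have hF0deg : F0.degree < ((k.choose 2 + 1 : ℕ) : WithBot ℕ) :=
    Pool.Agent.Helper66.AC.altsum_degree a W (R.erase y) c hcdeg (k.choose 2 + 1)
      (by rw [Finset.card_erase_of_mem hy]; omega)
  have hq0 : ∏ t ∈ Finset.Ico 1 k, (X - C (t : ℝ)) ^ (k - t) ∣ F0 := by
    refine Finset.dvd_sum fun u hu => Dvd.dvd.mul_left ?_ _
    rw [Finset.mem_powerset] at hu
    have hyu : y ∉ u := fun h => Finset.notMem_erase y R (hu h)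
    rcases h0 u (hu.trans (Finset.erase_subset _ _)) hyu with h | ⟨-, h⟩
    · rw [G_eq_zero h]
      exact dvd_zero _
    · refine dvd_G (Finset.Ico 1 k) k (fun t => (t : ℝ)) (fun s _ t _ hst => by exact_mod_cast hst)
        fun t ht => ?_
      rw [Finset.mem_Ico] at ht
      exact h t ht.1 ht.2
  have hq1 : ∏ t ∈ Finset.range k, (X - C ((m : ℝ) - t)) ^ (k - t) ∣ F1 := by
    refine Finset.dvd_sum fun u hu => Dvd.dvd.mul_left ?_ _
    rw [Finset.mem_powerset] at hu
    have hyu : insert y u ⊆ R :=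
      Finset.insert_subset hy (hu.trans (Finset.erase_subset _ _))
    rcases h1 _ hyu (Finset.mem_insert_self y u) with h | h
    · rw [G_eq_zero h]
      exact dvd_zero _
    · refine dvd_G (Finset.range k) k (fun t => (m : ℝ) - t) (fun s _ t _ hst h => hst ?_)
        fun t ht => ?_
      · have h' : (s : ℝ) = t := by linarith
        exact_mod_cast h'
      · exact h t (Finset.mem_range.1 ht)
  have hF1deg : F1.degree < ((k.choose 2 + 1 : ℕ) : WithBot ℕ) := by
    have h2 : F1 = F - F0 := by rw [hsum]; ring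
    rw [h2]
    refine (Polynomial.degree_sub_le _ _).trans_lt (max_lt (hFdeg.trans ?_) hF0deg)
    exact_mod_cast Nat.lt_succ_self _
  have hF10 : F1 = 0 := by
    refine Polynomial.eq_zero_of_dvd_of_degree_lt hq1 ?_
    rw [degree_nodes, Pool.Agent.Helper66.AC.sum_sub_range]
    refine hF1deg.trans_le ?_
    have h3 : (k + 1).choose 2 = k.choose 2 + k := by
      rw [Nat.choose_succ_succ' k 1, Nat.choose_one_right]
      ring
    rw [h3]
    exact_mod_cast (by omega : k.choose 2 + 1 ≤ k.choose 2 + k)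
  have hF00 : F0 = 0 := by
    refine Polynomial.eq_zero_of_dvd_of_degree_lt hq0 ?_
    rw [degree_nodes, sum_Ico_sub]
    have h2 : F0 = F := by rw [hsum, hF10, add_zero]
    rw [h2]
    exact hFdeg
  have hev : F0.eval 0 = 1 := by
    rw [hF0, Polynomial.eval_finsetSum, Finset.sum_eq_single ∅]
    · simp [G, Polynomial.eval_prod]
    · intro u hu hne
      rw [Finset.mem_powerset] at hu
      have hyu : y ∉ u := fun h => Finset.notMem_erase y R (hu h)
      have hex : ∃ w ∈ W, ∑ i ∈ u, a w i = 1 := by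
        rcases h0 u (hu.trans (Finset.erase_subset _ _)) hyu with ⟨w, hw, -, hw1⟩ | ⟨h, -⟩
        · exact ⟨w, hw, hw1⟩
        · exact h (Finset.nonempty_iff_ne_empty.mpr hne)
      obtain ⟨w, hw, hw1⟩ := hex
      rw [Polynomial.eval_mul, G, Polynomial.eval_prod, Finset.prod_eq_zero hw, mul_zero]
      simp [hw1]
    · intro h
      exact absurd (Finset.empty_mem_powerset _) h
  rw [hF00, Polynomial.eval_zero] at hev
  exact zero_ne_one hev

end Pool.Agent.Helper2.KC
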