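import Pool.Agent.Helper2.KC.Poly
import Pool.Agent.Helper58.CV.Ramsey

/-!
MP_1bf996_co (almost k-covers of the cube): the kernel theorem C*, relative form.
A member `g` with coefficient vector `b g` contains the vertex `u` if `∑ i ∈ u, b g i = 1`.
-/

set_option autoImplicit false

open Finset

namespace Pool.Agent.Helper2.KC

open Pool.Agent.H58CV

theorem choose_ge' {m t : ℕ} (ht : 1 ≤ t) (htm : t + 1 ≤ m) : m ≤ m.choose t := by
  induction m with
  | zero => omega
  | succ m ih =>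
    obtain ⟨s, rfl⟩ : ∃ s, t = s + 1 := ⟨t - 1, by omega⟩
    rw [Nat.choose_succ_succ']
    by_cases h : s + 1 + 1 ≤ m
    · have h1 := ih h
      have h2 : 1 ≤ m.choose s := Nat.choose_pos (by omega)
      omega
    · have h3 : m = s + 1 := by omega
      subst h3
      rw [Nat.choose_self, Nat.choose_succ_self_right]

/-- The data: `X` a set of coordinates with private members `R i` of the same pattern, `E` members
which are zero on `X`, `S` the other members. Only the vertices which no member of `E` contains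
have to be covered `k` times. -/
structure StarData (k : ℕ) (α ι : Type) [DecidableEq α] [DecidableEq ι] where
  /-- coefficients -/
  b : ι → α → ℝ
  /-- the coordinates -/
  D : Finset α
  X : Finset α
  XD : X ⊆ D
  R : α → ι
  S : Finset ι
  E : Finset ι
  disj : Disjoint S E
  RS : ∀ i ∈ X, R i ∉ S
  RE : ∀ i ∈ X, R i ∉ E
  hE : ∀ g ∈ E, ∀ i ∈ X, b g i = 0
  R1 : ∀ i ∈ X, b (R i) i ≠ 0
  R2 : ∀ i ∈ X, ∀ j ∈ X, j ≠ i → b (R i) j = 0
  pat0 : ∀ i ∈ X, ∀ j ∈ X, ∀ z ⊆ D, Disjoint z X →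
    (∑ v ∈ z, b (R i) v = 1 ↔ ∑ v ∈ z, b (R j) v = 1)
  pat1 : ∀ i ∈ X, ∀ j ∈ X, ∀ z ⊆ D, Disjoint z X →
    (∑ v ∈ z, b (R i) v + b (R i) i = 1 ↔ ∑ v ∈ z, b (R j) v + b (R j) j = 1)
  cov : ∀ u ⊆ D, u.Nonempty → (∃ g ∈ E, ∑ v ∈ u, b g v = 1) ∨
    k ≤ (S.filter fun g => ∑ v ∈ u, b g v = 1).card +
      (X.filter fun i => ∑ v ∈ u, b (R i) v = 1).card

namespace StarData

variable {α ι : Type} [DecidableEq α] [DecidableEq ι]
variable {k : ℕ} (P : StarData k α ι)

theorem R_sum {i : α} (hi : i ∈ P.X) {z T : Finset α} (hz : Disjoint z P.X) (hT : T ⊆ P.X) :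
    ∑ v ∈ z ∪ T, P.b (P.R i) v = ∑ v ∈ z, P.b (P.R i) v + if i ∈ T then P.b (P.R i) i else 0 := by
  have hd : Disjoint z T := Finset.disjoint_of_subset_right hT hz
  rw [Finset.sum_union hd]
  congr 1
  split_ifs with h
  · refine Finset.sum_eq_single_of_mem i h fun j hj hji => ?_
    exact P.R2 i hi j (hT hj) hji
  · refine Finset.sum_eq_zero fun j hj => ?_
    exact P.R2 i hi j (hT hj) (fun hji => h (hji ▸ hj))

theorem E_sum {g : ι} (hg : g ∈ P.E) {z T : Finset α} (hz : Disjoint z P.X) (hT : T ⊆ P.X) :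
    ∑ v ∈ z ∪ T, P.b g v = ∑ v ∈ z, P.b g v := by
  have hd : Disjoint z T := Finset.disjoint_of_subset_right hT hz
  rw [Finset.sum_union hd, Finset.sum_eq_zero fun j hj => P.hE g hg j (hT hj), add_zero]

/-- the two patterns of the private members -/
def p0 (r : α) (z : Finset α) : Prop := ∑ v ∈ z, P.b (P.R r) v = 1

def p1 (r : α) (z : Finset α) : Prop := ∑ v ∈ z, P.b (P.R r) v + P.b (P.R r) r = 1

theorem not_both {r : α} (hr : r ∈ P.X) {z : Finset α} (h0 : P.p0 r z) (h1 : P.p1 r z) : False := by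
  unfold p0 at h0
  unfold p1 at h1
  rw [h0] at h1
  exact P.R1 r hr (by linarith)

/-- covering at a level, the private members counted -/
theorem levels {r : α} (hr : r ∈ P.X) {z T : Finset α} (hzD : z ⊆ P.D) (hz : Disjoint z P.X)
    (hT : T ⊆ P.X) (hne : (z ∪ T).Nonempty) (hE : ¬ ∃ g ∈ P.E, ∑ v ∈ z, P.b g v = 1) (d : ℕ)
    (h1 : P.p1 r z → T.card ≤ d) (h0 : P.p0 r z → (P.X \ T).card ≤ d) :
    k ≤ (P.S.filter fun g => ∑ v ∈ z ∪ T, P.b g v = 1).card + d := by
  rcases P.cov (z ∪ T) (Finset.union_subset hzD (hT.trans P.XD)) hne with ⟨g, hg, h⟩ | h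
  · rw [P.E_sum hg hz hT] at h
    exact absurd ⟨g, hg, h⟩ hE
  · refine h.trans (Nat.add_le_add_left ?_ _)
    by_cases hp1 : P.p1 r z
    · refine le_trans (Finset.card_le_card fun i hi => ?_) (h1 hp1)
      rw [Finset.mem_filter] at hi
      obtain ⟨hiX, hi⟩ := hi
      by_contra hiT
      rw [P.R_sum hiX hz hT, if_neg hiT, add_zero] at hi
      exact P.not_both hr ((P.pat0 i hiX r hr z hzD hz).1 hi) hp1
    · by_cases hp0 : P.p0 r z
      · refine le_trans (Finset.card_le_card fun i hi => ?_) (h0 hp0)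
        rw [Finset.mem_filter] at hi
        obtain ⟨hiX, hi⟩ := hi
        rw [Finset.mem_sdiff]
        refine ⟨hiX, fun hiT => ?_⟩
        rw [P.R_sum hiX hz hT, if_pos hiT] at hi
        exact hp1 ((P.pat1 i hiX r hr z hzD hz).1 hi)
      · rw [Finset.filter_eq_empty_iff.2 fun i hiX hi => ?_]
        · exact Nat.zero_le _
        · by_cases hiT : i ∈ T
          · rw [P.R_sum hiX hz hT, if_pos hiT] at hi
            exact hp1 ((P.pat1 i hiX r hr z hzD hz).1 hi)
          · rw [P.R_sum hiX hz hT, if_neg hiT, add_zero] at hi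
            exact hp0 ((P.pat0 i hiX r hr z hzD hz).1 hi)

/-- the average of the coefficients on `X'` -/
noncomputable def lam (X' : Finset α) (g : ι) : ℝ := (∑ j ∈ X', P.b g j) / X'.card

/-- the coefficients after merging -/
noncomputable def a (X' : Finset α) (r : α) (g : ι) (i : α) : ℝ :=
  if i = r then ∑ j ∈ P.X \ X', P.b g j else P.b g i

theorem a_sum0 (X' : Finset α) {r : α} {u : Finset α} (hu : r ∉ u) (g : ι) :
    ∑ i ∈ u, P.a X' r g i = ∑ i ∈ u, P.b g i := by
  refine Finset.sum_congr rfl fun i hi => ?_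
  have hir : i ≠ r := fun h => hu (h ▸ hi)
  unfold a
  rw [if_neg hir]

theorem a_sum1 (X' : Finset α) {r : α} {u : Finset α} (hu : r ∈ u) (hd : Disjoint (u.erase r) P.X)
    (g : ι) : ∑ i ∈ u, P.a X' r g i = ∑ i ∈ u.erase r ∪ (P.X \ X'), P.b g i := by
  rw [← Finset.add_sum_erase u _ hu, P.a_sum0 X' (Finset.notMem_erase r u),
    Finset.sum_union (Finset.disjoint_of_subset_right Finset.sdiff_subset hd)]
  unfold a
  rw [if_pos rfl, add_comm]

theorem lam_const {X' : Finset α} (hX' : X'.Nonempty) {g : ι} (h : ∃ c, ∀ i ∈ X', P.b g i = c)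
    {T : Finset α} (hT : T ⊆ X') : ∑ i ∈ T, P.b g i = P.lam X' g * T.card := by
  obtain ⟨c, hc⟩ := h
  have hpos : (0 : ℝ) < X'.card := by exact_mod_cast Finset.card_pos.2 hX'
  unfold lam
  rw [Finset.sum_congr rfl fun i hi => hc i (hT hi), Finset.sum_congr rfl hc, Finset.sum_const,
    Finset.sum_const, nsmul_eq_mul, nsmul_eq_mul]
  field_simp

theorem lam_all {X' : Finset α} (hX' : X'.Nonempty) (g : ι) :
    ∑ i ∈ X', P.b g i = P.lam X' g * X'.card := by
  have hpos : (0 : ℝ) < X'.card := by exact_mod_cast Finset.card_pos.2 hX'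
  unfold lam
  field_simp

theorem lam_zero {X' : Finset α} {g : ι} (h : ∀ i ∈ X', P.b g i = 0) : P.lam X' g = 0 := by
  unfold lam
  rw [Finset.sum_eq_zero h, zero_div]

/-- a subset of each size which no dissociated member reaches -/
theorem free {X' : Finset α} (hS : P.S.card < X'.card)
    (hdi : ∀ g ∈ P.S, (∃ c, ∀ i ∈ X', P.b g i = c) ∨ Diss (P.b g) X')
    {B : Finset α} (hB : Disjoint B X') {t : ℕ} (ht : 1 ≤ t) (htm : t + 1 ≤ X'.card) :
    ∃ T ⊆ X', T.card = t ∧ ∀ g ∈ P.S, ∑ v ∈ B ∪ T, P.b g v = 1 → ∃ c, ∀ i ∈ X', P.b g i = c := by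
  by_contra hcon
  push Not at hcon
  have h1 : ∀ T ∈ powersetCard t X', ∃ g ∈ P.S, ∑ v ∈ B ∪ T, P.b g v = 1 ∧ Diss (P.b g) X' := by
    intro T hT
    rw [mem_powersetCard] at hT
    obtain ⟨g, hg, hg1, hg2⟩ := hcon T hT.1 hT.2
    refine ⟨g, hg, hg1, (hdi g hg).resolve_left ?_⟩
    rintro ⟨c, hc⟩
    obtain ⟨i, hi, hne⟩ := hg2 c
    exact hne (hc i hi)
  have hne : P.S.Nonempty := by
    obtain ⟨T, hT, hTc⟩ := Finset.exists_subset_card_eq (show t ≤ X'.card by omega)
    obtain ⟨g, hg, -⟩ := h1 T (mem_powersetCard.2 ⟨hT, hTc⟩)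
    exact ⟨g, hg⟩
  have : Nonempty ι := ⟨hne.choose⟩
  choose! f hf1 hf2 hf3 using h1
  have h2 : (powersetCard t X').card ≤ P.S.card := by
    refine Finset.card_le_card_of_injOn f (fun T hT => hf1 T hT) ?_
    intro T hT T' hT' heq
    have hT1 := mem_powersetCard.1 (mem_coe.1 hT)
    have hT1' := mem_powersetCard.1 (mem_coe.1 hT')
    have e1 := hf2 T hT
    have e2 := hf2 T' hT'
    rw [Finset.sum_union (Finset.disjoint_of_subset_right hT1.1 hB)] at e1
    rw [Finset.sum_union (Finset.disjoint_of_subset_right hT1'.1 hB)] at e2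
    have heq' : f T = f T' := heq
    rw [heq'] at e1
    refine (hf3 T' hT').signed (fun _ => 1) (fun _ => Or.inl rfl) hT1.1 hT1'.1 ?_
    simp only [one_mul]
    linarith
  rw [card_powersetCard] at h2
  have h3 := choose_ge' ht htm
  omega

/-- the case where no private member reaches the fibre -/
theorem const_ex (hk : 1 ≤ k) {X' : Finset α} (hX' : X' ⊆ P.X) (hS : P.S.card + 1 < X'.card)
    (hdi : ∀ g ∈ P.S, (∃ c, ∀ i ∈ X', P.b g i = c) ∨ Diss (P.b g) X')
    {r : α} (hr : r ∈ P.X) {z Q : Finset α} (hzD : z ⊆ P.D) (hz : Disjoint z P.X)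
    (hQ : Q ⊆ P.X \ X')
    (h0 : ¬ P.p0 r z) (h1 : ¬ P.p1 r z) :
    ∃ w ∈ P.E ∪ insert (P.R r) P.S, P.lam X' w = 0 ∧ ∑ v ∈ z ∪ Q, P.b w v = 1 := by
  have hQX : Q ⊆ P.X := hQ.trans Finset.sdiff_subset
  by_cases hE : ∃ g ∈ P.E, ∑ v ∈ z, P.b g v = 1
  · obtain ⟨g, hg, h⟩ := hE
    refine ⟨g, Finset.mem_union_left _ hg, P.lam_zero fun i hi => P.hE g hg i (hX' hi), ?_⟩
    rw [P.E_sum hg hz hQX, h]
  have hB : Disjoint (z ∪ Q) X' := by
    rw [Finset.disjoint_union_left]
    exact ⟨Finset.disjoint_of_subset_right hX' hz,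
      Finset.disjoint_of_subset_left hQ Finset.sdiff_disjoint⟩
  have hne : X'.Nonempty := Finset.card_pos.1 (by omega)
  have key : ∀ t ∈ Finset.Ico 1 X'.card, ∃ g ∈ P.S,
      ∑ v ∈ z ∪ Q, P.b g v + P.lam X' g * t = 1 := by
    intro t ht
    rw [Finset.mem_Ico] at ht
    obtain ⟨T, hT, hTc, hfree⟩ := P.free (by omega) hdi hB ht.1 (by omega)
    have hl := P.levels hr hzD hz (T := Q ∪ T) (Finset.union_subset hQX (hT.trans hX')) (by
      obtain ⟨x, hx⟩ := Finset.card_pos.1 (show 0 < T.card by omega)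
      exact ⟨x, Finset.mem_union_right _ (Finset.mem_union_right _ hx)⟩) hE 0
      (fun h => absurd h h1) (fun h => absurd h h0)
    obtain ⟨g, hg⟩ := Finset.card_pos.1 (show 0 < (P.S.filter fun g =>
      ∑ v ∈ z ∪ (Q ∪ T), P.b g v = 1).card by omega)
    rw [Finset.mem_filter, ← Finset.union_assoc] at hg
    refine ⟨g, hg.1, ?_⟩
    have hc := hfree g hg.1 hg.2
    have h2 := hg.2
    rw [Finset.sum_union (Finset.disjoint_of_subset_right hT hB), P.lam_const hne hc hT, hTc] at h2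
    exact h2
  obtain ⟨t0, ht0⟩ : (Finset.Ico 1 X'.card).Nonempty := Finset.nonempty_Ico.2 (by omega)
  have : Nonempty ι := ⟨(key t0 ht0).choose⟩
  choose! f hf1 hf2 using key
  have hnot : ¬ Set.InjOn f (Finset.Ico 1 X'.card) := by
    intro hinj
    have := Finset.card_le_card_of_injOn f (fun t ht => hf1 t ht) hinj
    rw [Nat.card_Ico] at this
    omega
  unfold Set.InjOn at hnot
  push Not at hnot
  obtain ⟨s, hs, t, ht, heq, hst⟩ := hnot
  have e1 := hf2 s hs
  have e2 := hf2 t ht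
  rw [heq] at e1
  have e3 : P.lam X' (f t) * ((s : ℝ) - t) = 0 := by linarith
  have e4 : ((s : ℝ) - t) ≠ 0 := by
    rw [sub_ne_zero]
    exact_mod_cast hst
  have e5 : P.lam X' (f t) = 0 := (mul_eq_zero.1 e3).resolve_right e4
  refine ⟨f t, Finset.mem_union_right _ (Finset.mem_insert_of_mem (hf1 t ht)), e5, ?_⟩
  rw [e5, zero_mul, add_zero] at e2
  exact e2

/-- the main step: the subset `X'` has been chosen -/
theorem main_step (hk : 1 ≤ k) {X' : Finset α} (hX' : X' ⊆ P.X) (hS : P.S.card + 1 < X'.card)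
    (hkX : k < X'.card)
    (hdi : ∀ g ∈ P.S, (∃ c, ∀ i ∈ X', P.b g i = c) ∨ Diss (P.b g) X')
    {r : α} (hr : r ∈ P.X) (hrX : r ∉ X') :
    P.D.card + k.choose 2 ≤ P.E.card + P.S.card + P.X.card := by
  have hne : X'.Nonempty := Finset.card_pos.1 (by omega)
  have hrW : P.R r ∈ P.E ∪ insert (P.R r) P.S :=
    Finset.mem_union_right _ (Finset.mem_insert_self _ _)
  have hrlam : P.lam X' (P.R r) = 0 :=
    P.lam_zero fun i hi => P.R2 r hr i (hX' hi) (fun h => hrX (h ▸ hi))
  have hSW : P.S ⊆ P.E ∪ insert (P.R r) P.S := fun g hg =>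
    Finset.mem_union_right _ (Finset.mem_insert_of_mem hg)
  have hdu : ∀ u ⊆ P.D \ (P.X.erase r), Disjoint (u.erase r) P.X := by
    intro u hu
    rw [Finset.disjoint_left]
    intro x hx hxX
    rw [Finset.mem_erase] at hx
    have := hu hx.2
    rw [Finset.mem_sdiff] at this
    exact this.2 (Finset.mem_erase.2 ⟨hx.1, hxX⟩)
  have hrD : r ∈ P.D \ (P.X.erase r) := by
    rw [Finset.mem_sdiff]
    exact ⟨P.XD hr, Finset.notMem_erase r P.X⟩
  have hkp := kernel_poly (P.D \ (P.X.erase r)) r hrD (P.E ∪ insert (P.R r) P.S)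
    (P.a X' r) (P.lam X') k X'.card hk ?_ ?_
  · have hc1 : (P.E ∪ insert (P.R r) P.S).card = P.E.card + (P.S.card + 1) := by
      rw [Finset.card_union_of_disjoint, Finset.card_insert_of_notMem (P.RS r hr)]
      rw [Finset.disjoint_insert_right]
      exact ⟨P.RE r hr, P.disj.symm⟩
    have hc2 : (P.D \ (P.X.erase r)).card + (P.X.card - 1) = P.D.card := by
      have h1 := Finset.card_sdiff_add_card_eq_card
        (show P.X.erase r ⊆ P.D from (Finset.erase_subset r P.X).trans P.XD)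
      rw [Finset.card_erase_of_mem hr] at h1
      exact h1
    have hX1 : 0 < P.X.card := Finset.card_pos.2 ⟨r, hr⟩
    omega
  · -- r ∉ u
    intro u hu hru
    have hdis : Disjoint u P.X := by
      have := hdu u hu
      rwa [Finset.erase_eq_of_notMem hru] at this
    have huD : u ⊆ P.D := hu.trans Finset.sdiff_subset
    simp only [P.a_sum0 X' hru]
    by_cases hp0 : P.p0 r u
    · exact Or.inl ⟨P.R r, hrW, hrlam, hp0⟩
    by_cases hp1 : P.p1 r u
    · by_cases hE : ∃ g ∈ P.E, ∑ v ∈ u, P.b g v = 1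
      · obtain ⟨g, hg, h⟩ := hE
        exact Or.inl ⟨g, Finset.mem_union_left _ hg,
          P.lam_zero fun i hi => P.hE g hg i (hX' hi), h⟩
      refine Or.inr ⟨fun hun => ?_, fun t ht1 htk => ?_⟩
      · have hl := P.levels hr huD hdis (T := ∅) (Finset.empty_subset _) (by
          rw [Finset.union_empty]; exact hun) hE 0 (fun _ => by simp) (fun h => absurd h hp0)
        obtain ⟨g, hg⟩ := Finset.card_pos.1 (show 0 < (P.S.filter fun g =>
          ∑ v ∈ u ∪ ∅, P.b g v = 1).card by omega)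
        rw [Finset.mem_filter, Finset.union_empty] at hg
        exact ⟨g, hSW hg.1, hg.2⟩
      · have hB : Disjoint u X' := Finset.disjoint_of_subset_right hX' hdis
        obtain ⟨T, hT, hTc, hfree⟩ := P.free (by omega) hdi hB ht1 (by omega)
        have hl := P.levels hr huD hdis (T := T) (hT.trans hX') (by
          obtain ⟨x, hx⟩ := Finset.card_pos.1 (show 0 < T.card by omega)
          exact ⟨x, Finset.mem_union_right _ hx⟩) hE t (fun _ => hTc.le) (fun h => absurd h hp0)
        have hle : (P.S.filter fun g => ∑ v ∈ u ∪ T, P.b g v = 1).card ≤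
            ((P.E ∪ insert (P.R r) P.S).filter fun w =>
              ∑ i ∈ u, P.b w i + P.lam X' w * t = 1).card := by
          refine Finset.card_le_card fun g hg => ?_
          rw [Finset.mem_filter] at hg ⊢
          refine ⟨hSW hg.1, ?_⟩
          have hc := hfree g hg.1 hg.2
          have h2 := hg.2
          rw [Finset.sum_union (Finset.disjoint_of_subset_right hT hB), P.lam_const hne hc hT,
            hTc] at h2
          exact h2
        omega
    · obtain ⟨w, hw, hw1, hw2⟩ := P.const_ex hk hX' hS hdi hr huD hdis (Q := ∅)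
        (Finset.empty_subset _) hp0 hp1
      rw [Finset.union_empty] at hw2
      exact Or.inl ⟨w, hw, hw1, hw2⟩
  · -- r ∈ u
    intro u hu hru
    have hdis := hdu u hu
    have huD : u.erase r ⊆ P.D := (Finset.erase_subset r u).trans (hu.trans Finset.sdiff_subset)
    set z := u.erase r with hz
    simp only [P.a_sum1 X' hru hdis]
    by_cases hp1 : P.p1 r z
    · refine Or.inl ⟨P.R r, hrW, hrlam, ?_⟩
      rw [← hz, P.R_sum hr hdis Finset.sdiff_subset, if_pos (Finset.mem_sdiff.2 ⟨hr, hrX⟩)]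
      exact hp1
    by_cases hp0 : P.p0 r z
    · by_cases hE : ∃ g ∈ P.E, ∑ v ∈ z, P.b g v = 1
      · obtain ⟨g, hg, h⟩ := hE
        refine Or.inl ⟨g, Finset.mem_union_left _ hg,
          P.lam_zero fun i hi => P.hE g hg i (hX' hi), ?_⟩
        rw [← hz, P.E_sum hg hdis Finset.sdiff_subset]
        exact h
      refine Or.inr fun t htk => ?_
      have hB : Disjoint (z ∪ (P.X \ X')) X' := by
        rw [Finset.disjoint_union_left]
        exact ⟨Finset.disjoint_of_subset_right hX' hdis, Finset.sdiff_disjoint⟩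
      obtain ⟨T, hT, hTc, hfree⟩ : ∃ T ⊆ X', T.card = X'.card - t ∧ ∀ g ∈ P.S,
          ∑ v ∈ (z ∪ (P.X \ X')) ∪ T, P.b g v = 1 →
            ∑ v ∈ T, P.b g v = P.lam X' g * T.card := by
        rcases Nat.eq_zero_or_pos t with rfl | ht
        · exact ⟨X', Subset.refl _, by simp, fun g _ _ => P.lam_all hne g⟩
        · obtain ⟨T, hT, hTc, hfree⟩ := P.free (t := X'.card - t) (by omega) hdi hB
            (by omega) (by omega)
          exact ⟨T, hT, hTc, fun g hg h => P.lam_const hne (hfree g hg h) hT⟩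
      have hTX : (P.X \ X') ∪ T ⊆ P.X := Finset.union_subset Finset.sdiff_subset (hT.trans hX')
      have hcomp : (P.X \ ((P.X \ X') ∪ T)).card ≤ t := by
        have hsub : P.X \ ((P.X \ X') ∪ T) ⊆ X' \ T := by
          intro x hx
          rw [Finset.mem_sdiff, Finset.mem_union, Finset.mem_sdiff] at hx
          rw [Finset.mem_sdiff]
          tauto
        refine (Finset.card_le_card hsub).trans ?_
        have := Finset.card_sdiff_add_card_eq_card hT
        omega
      have hl := P.levels hr huD hdis (T := (P.X \ X') ∪ T) hTX (by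
        obtain ⟨x, hx⟩ := Finset.card_pos.1 (show 0 < T.card by omega)
        exact ⟨x, Finset.mem_union_right _ (Finset.mem_union_right _ hx)⟩) hE t
        (fun h => absurd h hp1) (fun _ => hcomp)
      have hle : (P.S.filter fun g => ∑ v ∈ z ∪ ((P.X \ X') ∪ T), P.b g v = 1).card ≤
          ((P.E ∪ insert (P.R r) P.S).filter fun w =>
            ∑ i ∈ z ∪ (P.X \ X'), P.b w i + P.lam X' w * ((X'.card : ℝ) - t) = 1).card := by
        refine Finset.card_le_card fun g hg => ?_
        rw [Finset.mem_filter, ← Finset.union_assoc] at hg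
        rw [Finset.mem_filter]
        refine ⟨hSW hg.1, ?_⟩
        have hc := hfree g hg.1 hg.2
        have h2 := hg.2
        rw [Finset.sum_union (Finset.disjoint_of_subset_right hT hB), hc, hTc,
          Nat.cast_sub (by omega)] at h2
        exact h2
      rw [← hz]
      omega
    · exact Or.inl (P.const_ex hk hX' hS hdi hr huD hdis (Subset.refl _) hp0 hp1)

end StarData

/-- Theorem C*. -/
theorem star (k A : ℕ) (hk : 1 ≤ k) : ∃ m₀ : ℕ, ∀ {α ι : Type} [DecidableEq α]
    [DecidableEq ι] (P : StarData k α ι), P.S.card ≤ A → m₀ ≤ P.X.card →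
    P.D.card + k.choose 2 ≤ P.E.card + P.S.card + P.X.card := by
  set m := A + k + 2 with hm
  obtain ⟨M, hM, hram⟩ := ramsey (m + A * 4 ^ m) A
  refine ⟨M + 1, ?_⟩
  intro α ι _ _ P hA hX
  classical
  obtain ⟨J, hJX, hJc, hJ⟩ := hram P.S P.b P.X hA (by omega)
  obtain ⟨X', hX'J, hX'c, hX'⟩ := diss_ex (P.S.filter fun g => Set.InjOn (P.b g) J) P.b J
    (fun g hg => (Finset.mem_filter.1 hg).2) m (by
      refine le_trans (Nat.add_le_add_left (Nat.mul_le_mul_right _ ?_) _) hJc
      exact (Finset.card_filter_le _ _).trans hA)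
  obtain ⟨r, hr, hrX⟩ : ∃ r ∈ P.X, r ∉ X' := by
    by_contra hcon
    push Not at hcon
    have h1 := Finset.card_le_card (show P.X ⊆ X' from hcon)
    have h2 : m ≤ M := le_trans (Nat.le_add_right _ _) hM
    omega
  refine P.main_step hk (hX'J.trans hJX) (by omega) (by omega) (fun g hg => ?_) hr hrX
  rcases hJ g hg with ⟨c, hc⟩ | h
  · exact Or.inl ⟨c, fun i hi => hc i (hX'J hi)⟩
  · exact Or.inr (hX' g (Finset.mem_filter.2 ⟨hg, h⟩))

end Pool.Agent.Helper2.KC
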